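import Mathlib

/-!
# Freiman–Ruzsa with polynomial bounds for groups of exponent `2^K`, from exponent `2`
-/

set_option autoImplicit false

open Finset
open scoped Pointwise

namespace BSG

/-- Polynomial Freiman–Ruzsa over groups of exponent two, popular coset form. -/
def PFR1 (C : ℕ) : Prop :=
  ∀ (G : Type) [AddCommGroup G] [Fintype G] [DecidableEq G], (∀ x : G, x + x = 0) →
    ∀ A : Finset G, A.Nonempty → ∀ M : ℝ, ((A + A).card : ℝ) ≤ M * A.card →
      ∃ (H : AddSubgroup G) (A' : Finset G), A' ⊆ A ∧ (∀ a ∈ A', ∀ b ∈ A', a - b ∈ H) ∧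
        (A.card : ℝ) ≤ M ^ C * (A'.card : ℝ) ∧ (Nat.card H : ℝ) ≤ M ^ C * A.card

/-- The conclusion: a popular coset of a subgroup of comparable size. -/
def Pop {G : Type} [AddCommGroup G] (C : ℕ) (A : Finset G) (M : ℝ) : Prop :=
  ∃ (H : AddSubgroup G) (A' : Finset G), A' ⊆ A ∧ A'.Nonempty ∧
    (∀ a ∈ A', ∀ b ∈ A', a - b ∈ H) ∧
    (A.card : ℝ) ≤ M ^ C * (A'.card : ℝ) ∧ (Nat.card H : ℝ) ≤ M ^ C * A.card

/-- Polynomial Freiman–Ruzsa for sets inside a coset of a subgroup `S` with `2^K S = 0`. -/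
def PFRS (K C : ℕ) : Prop :=
  ∀ (G : Type) [AddCommGroup G] [Finite G] [DecidableEq G] (S : AddSubgroup G),
    (∀ s ∈ S, (2 ^ K) • s = 0) →
    ∀ A : Finset G, A.Nonempty → (∀ a ∈ A, ∀ b ∈ A, a - b ∈ S) → ∀ M : ℝ,
      ((A + A).card : ℝ) ≤ M * A.card → Pop C A M

section basic

variable {G : Type} [AddCommGroup G] [DecidableEq G]

theorem one_le_of_doubling {A : Finset G} (hA : A.Nonempty) {M : ℝ}
    (h : ((A + A).card : ℝ) ≤ M * A.card) : 1 ≤ M := by
  have h1 : (A.card : ℝ) ≤ ((A + A).card : ℝ) := by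
    exact_mod_cast Finset.card_le_card_add_left hA
  have h2 : 0 < (A.card : ℝ) := by exact_mod_cast hA.card_pos
  have h3 : 1 * (A.card : ℝ) ≤ M * A.card := by linarith
  exact le_of_mul_le_mul_right h3 h2

theorem plun {A : Finset G} (hA : A.Nonempty) {M : ℝ}
    (h : ((A + A).card : ℝ) ≤ M * A.card) (m n : ℕ) :
    ((m • A - n • A).card : ℝ) ≤ M ^ (m + n) * A.card := by
  have h1 := Finset.pluennecke_ruzsa_inequality_nsmul_sub_nsmul_add hA A m n
  have h2 : 0 < (A.card : ℝ) := by exact_mod_cast hA.card_pos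
  have h3 : (((m • A - n • A).card : ℚ≥0) : ℝ)
      ≤ ((((A + A).card / A.card : ℚ≥0) ^ (m + n) * A.card : ℚ≥0) : ℝ) := by
    exact_mod_cast h1
  push_cast at h3
  refine h3.trans ?_
  refine mul_le_mul_of_nonneg_right ?_ h2.le
  refine pow_le_pow_left₀ (by positivity) ?_ _
  rw [div_le_iff₀ h2]
  exact h

theorem plun32 {A : Finset G} (hA : A.Nonempty) {M : ℝ}
    (h : ((A + A).card : ℝ) ≤ M * A.card) :
    (((A + A + A) - (A + A)).card : ℝ) ≤ M ^ 5 * A.card := by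
  have h1 := plun hA h 3 2
  simpa only [succ_nsmul, zero_nsmul, zero_add] using h1

theorem plun31 {A : Finset G} (hA : A.Nonempty) {M : ℝ}
    (h : ((A + A).card : ℝ) ≤ M * A.card) :
    (((A + A + A) - A).card : ℝ) ≤ M ^ 4 * A.card := by
  have h1 := plun hA h 3 1
  simpa only [succ_nsmul, zero_nsmul, zero_add] using h1

theorem plun21 {A : Finset G} (hA : A.Nonempty) {M : ℝ}
    (h : ((A + A).card : ℝ) ≤ M * A.card) :
    (((A + A) - A).card : ℝ) ≤ M ^ 3 * A.card := by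
  have h1 := plun hA h 2 1
  simpa only [succ_nsmul, zero_nsmul, zero_add] using h1

theorem plun30 {A : Finset G} (hA : A.Nonempty) {M : ℝ}
    (h : ((A + A).card : ℝ) ≤ M * A.card) :
    ((A + A + A).card : ℝ) ≤ M ^ 3 * A.card := by
  have h1 := plun hA h 3 0
  simpa only [succ_nsmul, zero_nsmul, zero_add, sub_zero, add_zero] using h1

/-- `|X mod H| * |B| ≤ |X + B|` when `B` lies in one coset of `H`. -/
theorem image_mul_card_le (H : AddSubgroup G) [DecidableEq (G ⧸ H)] (X B : Finset G)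
    (hB : ∀ b ∈ B, ∀ b' ∈ B, b - b' ∈ H) :
    (X.image (QuotientAddGroup.mk : G → G ⧸ H)).card * B.card ≤ (X + B).card := by
  classical
  have hex : ∀ q : G ⧸ H, ∃ g : G, q ∈ X.image (QuotientAddGroup.mk : G → G ⧸ H) →
      g ∈ X ∧ (QuotientAddGroup.mk g : G ⧸ H) = q := by
    intro q
    by_cases hq : q ∈ X.image (QuotientAddGroup.mk : G → G ⧸ H)
    · obtain ⟨g, hg, hgq⟩ := Finset.mem_image.1 hq
      exact ⟨g, fun _ => ⟨hg, hgq⟩⟩
    · exact ⟨0, fun h => absurd h hq⟩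
  choose σ hσ using hex
  rw [← Finset.card_product]
  refine Finset.card_le_card_of_injOn (fun p => σ p.1 + p.2) ?_ ?_
  · intro p hp
    rw [Finset.mem_coe, Finset.mem_product] at hp
    exact Finset.add_mem_add (hσ p.1 hp.1).1 hp.2
  · intro p hp q hq hpq
    rw [Finset.mem_coe, Finset.mem_product] at hp hq
    simp only at hpq
    have h1 : (QuotientAddGroup.mk (σ p.1 + p.2) : G ⧸ H) = QuotientAddGroup.mk (σ q.1 + q.2) := by
      rw [hpq]
    rw [QuotientAddGroup.mk_add, QuotientAddGroup.mk_add, (hσ p.1 hp.1).2, (hσ q.1 hq.1).2] at h1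
    have h2 : (QuotientAddGroup.mk p.2 : G ⧸ H) = QuotientAddGroup.mk q.2 := by
      rw [QuotientAddGroup.eq]
      have h3 := hB q.2 hq.2 p.2 hp.2
      rwa [neg_add_eq_sub]
    rw [h2] at h1
    have h4 : p.1 = q.1 := add_right_cancel h1
    rw [h4] at hpq
    exact Prod.ext h4 (add_left_cancel hpq)

omit [DecidableEq G] in
/-- fibre bound -/
theorem card_le_mul_image (H : AddSubgroup G) [DecidableEq (G ⧸ H)] (X B : Finset G)
    (hB : ∀ x ∈ X, ∀ y ∈ X, x - y ∈ H → x - y ∈ B) :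
    X.card ≤ B.card * (X.image (QuotientAddGroup.mk : G → G ⧸ H)).card := by
  classical
  refine Finset.card_le_mul_card_image X B.card (fun q hq => ?_)
  obtain ⟨g, hg, hgq⟩ := Finset.mem_image.1 hq
  refine Finset.card_le_card_of_injOn (fun x => x - g) ?_ ?_
  · intro x hx
    rw [Finset.mem_coe, Finset.mem_filter] at hx
    refine hB x hx.1 g hg ?_
    have h1 : (QuotientAddGroup.mk g : G ⧸ H) = QuotientAddGroup.mk x := by
      rw [hgq, hx.2]
    rw [QuotientAddGroup.eq] at h1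
    rwa [neg_add_eq_sub] at h1
  · intro x _ y _ hxy
    exact sub_left_injective hxy

omit [DecidableEq G] in
theorem card_le_mul_image' [Finite G] (H : AddSubgroup G) [DecidableEq (G ⧸ H)] (X : Finset G) :
    (X.card : ℝ) ≤ (Nat.card H : ℝ)
      * ((X.image (QuotientAddGroup.mk : G → G ⧸ H)).card : ℝ) := by
  classical
  have : Fintype G := Fintype.ofFinite G
  have h1 := card_le_mul_image H X (Finset.univ.filter (fun g => g ∈ H))
    (fun x _ y _ hxy => Finset.mem_filter.2 ⟨Finset.mem_univ _, hxy⟩)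
  have h2 : (Finset.univ.filter (fun g => g ∈ H)).card = Nat.card H := by
    rw [Nat.card_eq_fintype_card, Fintype.card_subtype]
  rw [h2] at h1
  exact_mod_cast h1

omit [AddCommGroup G] [DecidableEq G] in
/-- pigeonhole for coverings -/
theorem pigeon {ι : Type*} (I : Finset ι) (A : Finset G) (hA : A.Nonempty)
    (p : ι → G → Prop) (h : ∀ a ∈ A, ∃ i ∈ I, p i a) (L : ℝ) (hL : (I.card : ℝ) ≤ L) :
    ∃ i ∈ I, ∃ A' ⊆ A, A'.Nonempty ∧ (∀ a ∈ A', p i a) ∧ (A.card : ℝ) ≤ L * (A'.card : ℝ) := by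
  classical
  have hI : I.Nonempty := by
    obtain ⟨a, ha⟩ := hA
    obtain ⟨i, hi, _⟩ := h a ha
    exact ⟨i, hi⟩
  have h1 : A.card ≤ ∑ i ∈ I, (A.filter (p i)).card := by
    have h2 : A ⊆ I.biUnion (fun i => A.filter (p i)) := by
      intro a ha
      obtain ⟨i, hi, hpi⟩ := h a ha
      exact Finset.mem_biUnion.2 ⟨i, hi, Finset.mem_filter.2 ⟨ha, hpi⟩⟩
    exact (Finset.card_le_card h2).trans Finset.card_biUnion_le
  obtain ⟨i, hi, hmax⟩ := Finset.exists_max_image I (fun i => (A.filter (p i)).card) hI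
  have h3 : A.card ≤ I.card * (A.filter (p i)).card := by
    refine h1.trans ?_
    rw [← smul_eq_mul]
    exact Finset.sum_le_card_nsmul _ _ _ hmax
  have h4 : (A.card : ℝ) ≤ L * ((A.filter (p i)).card : ℝ) := by
    have h5 : (A.card : ℝ) ≤ (I.card : ℝ) * ((A.filter (p i)).card : ℝ) := by exact_mod_cast h3
    exact h5.trans (mul_le_mul_of_nonneg_right hL (by positivity))
  refine ⟨i, hi, A.filter (p i), Finset.filter_subset _ _, ?_, fun a ha => (Finset.mem_filter.1 ha).2,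
    h4⟩
  rw [← Finset.card_pos]
  by_contra h6
  have h7 : (A.filter (p i)).card = 0 := by omega
  rw [h7, mul_zero] at h3
  have := hA.card_pos
  omega

end basic

/-- From groups of exponent two to subsets of a coset of a subgroup of exponent two. -/
theorem pfrs_one {C : ℕ} (h : PFR1 C) : PFRS 1 C := by
  classical
  intro G _ _ _ S hS A hA hAS M hM
  have : Fintype G := Fintype.ofFinite G
  obtain ⟨a₀, ha₀⟩ := hA
  set f : G → S := fun g => if hg : g - a₀ ∈ S then ⟨g - a₀, hg⟩ else 0 with hf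
  have hfA : ∀ a ∈ A, ((f a : S) : G) = a - a₀ := by
    intro a ha
    simp only [hf]
    rw [dif_pos (hAS a ha a₀ ha₀)]
  have hinj : Set.InjOn f (A : Set G) := by
    intro a ha b hb hab
    have h1 : ((f a : S) : G) = ((f b : S) : G) := by rw [hab]
    rw [hfA a ha, hfA b hb] at h1
    exact sub_left_injective h1
  set B : Finset S := A.image f with hB
  have hBcard : B.card = A.card := Finset.card_image_of_injOn hinj
  have hBB : (B + B).card ≤ (A + A).card := by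
    refine Finset.card_le_card_of_injOn (fun s : S => (s : G) + (a₀ + a₀)) ?_ ?_
    · intro s hs
      rw [Finset.mem_coe] at hs
      obtain ⟨x, hx, y, hy, rfl⟩ := Finset.mem_add.1 hs
      obtain ⟨a, ha, rfl⟩ := Finset.mem_image.1 hx
      obtain ⟨b, hb, rfl⟩ := Finset.mem_image.1 hy
      rw [Finset.mem_coe]
      simp only [AddSubgroup.coe_add]
      rw [hfA a ha, hfA b hb]
      have : a - a₀ + (b - a₀) + (a₀ + a₀) = a + b := by abel
      rw [this]
      exact Finset.add_mem_add ha hb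
    · intro s _ t _ hst
      exact Subtype.ext (add_right_cancel hst)
  have hM' : ((B + B).card : ℝ) ≤ M * B.card := by
    rw [hBcard]
    exact le_trans (by exact_mod_cast hBB) hM
  have hBne : B.Nonempty := Finset.Nonempty.image ⟨a₀, ha₀⟩ f
  obtain ⟨H, B', hB'sub, hB'H, h1, h2⟩ := h S (fun x => by
    have h3 := hS x x.2
    rw [pow_one, two_nsmul] at h3
    exact Subtype.ext h3) B hBne M hM'
  have hMpos : 0 < M := lt_of_lt_of_le one_pos (one_le_of_doubling hBne hM')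
  have hcard : B'.card ≤ (A.filter (fun a => f a ∈ B')).card := by
    have h3 : B' ⊆ (A.filter (fun a => f a ∈ B')).image f := by
      intro s hs
      obtain ⟨a, ha, rfl⟩ := Finset.mem_image.1 (hB'sub hs)
      exact Finset.mem_image.2 ⟨a, Finset.mem_filter.2 ⟨ha, hs⟩, rfl⟩
    exact (Finset.card_le_card h3).trans Finset.card_image_le
  have h4 : (A.card : ℝ) ≤ M ^ C * ((A.filter (fun a => f a ∈ B')).card : ℝ) := by
    rw [hBcard] at h1
    refine h1.trans (mul_le_mul_of_nonneg_left ?_ (by positivity))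
    exact_mod_cast hcard
  refine ⟨H.map S.subtype, A.filter (fun a => f a ∈ B'), Finset.filter_subset _ _, ?_, ?_, h4, ?_⟩
  · rw [← Finset.card_pos]
    by_contra h6
    have h7 : (A.filter (fun a => f a ∈ B')).card = 0 := by omega
    rw [h7, Nat.cast_zero, mul_zero] at h4
    have : 0 < (A.card : ℝ) := by exact_mod_cast (Finset.card_pos.2 ⟨a₀, ha₀⟩)
    linarith
  · intro a ha b hb
    rw [Finset.mem_filter] at ha hb
    have h5 := hB'H (f a) ha.2 (f b) hb.2
    refine ⟨f a - f b, h5, ?_⟩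
    simp only [map_sub, AddSubgroup.coe_subtype]
    rw [hfA a ha.1, hfA b hb.1]
    abel
  · rw [hBcard] at h2
    have h8 : Nat.card (H.map S.subtype) = Nat.card H :=
      Nat.card_congr (H.equivMapOfInjective S.subtype S.subtype_injective).toEquiv.symm
    rw [h8]
    exact h2

set_option maxHeartbeats 1000000 in
/-- Induction step: from exponent `2^K` to exponent `2^(K+1)`. -/
theorem pfrs_succ {K C C1 : ℕ} (h : PFRS K C) (h1 : PFRS 1 C1) :
    PFRS (K + 1) ((12 + 15 * C) * (C1 + 1)) := by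
  classical
  intro G _ _ _ S hS A hA hAS M hM
  have hM1 : 1 ≤ M := one_le_of_doubling hA hM
  have hM0 : 0 < M := lt_of_lt_of_le one_pos hM1
  set N : ℝ := (A.card : ℝ) with hN
  have hNpos : 0 < N := by rw [hN]; exact_mod_cast hA.card_pos
  -- the doubled subgroup
  set S2 : AddSubgroup G := S.map (nsmulAddMonoidHom 2 : G →+ G) with hS2def
  have hS2 : ∀ s ∈ S2, (2 ^ K) • s = 0 := by
    rintro s ⟨t, ht, rfl⟩
    have h2 := hS t ht
    rw [pow_succ, mul_nsmul'] at h2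
    exact h2
  set B1 : Finset G := (A - A).filter (fun g => g ∈ S2) with hB1def
  have hB1ne : B1.Nonempty := by
    obtain ⟨a, ha⟩ := hA
    exact ⟨0, Finset.mem_filter.2 ⟨by simpa using Finset.sub_mem_sub ha ha, S2.zero_mem⟩⟩
  have hB1S2 : ∀ a ∈ B1, a ∈ S2 := fun a ha => (Finset.mem_filter.1 ha).2
  have hB1AA : ∀ a ∈ B1, a ∈ A - A := fun a ha => (Finset.mem_filter.1 ha).1
  have hα1 : A.card ≤ B1.card * (A.image (QuotientAddGroup.mk : G → G ⧸ S2)).card :=
    card_le_mul_image S2 A B1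
      (fun x hx y hy hxy => Finset.mem_filter.2 ⟨Finset.sub_mem_sub hx hy, hxy⟩)
  have hα2 := image_mul_card_le S2 A (B1 + B1) (fun a ha b hb => by
    obtain ⟨x, hx, y, hy, rfl⟩ := Finset.mem_add.1 ha
    obtain ⟨x', hx', y', hy', rfl⟩ := Finset.mem_add.1 hb
    exact S2.sub_mem (S2.add_mem (hB1S2 _ hx) (hB1S2 _ hy))
      (S2.add_mem (hB1S2 _ hx') (hB1S2 _ hy')))
  have hsub32 : A + (B1 + B1) ⊆ (A + A + A) - (A + A) := by
    intro g hg
    obtain ⟨a, ha, e, he, rfl⟩ := Finset.mem_add.1 hg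
    obtain ⟨x, hx, y, hy, rfl⟩ := Finset.mem_add.1 he
    obtain ⟨x1, hx1, x2, hx2, rfl⟩ := Finset.mem_sub.1 (hB1AA _ hx)
    obtain ⟨y1, hy1, y2, hy2, rfl⟩ := Finset.mem_sub.1 (hB1AA _ hy)
    refine Finset.mem_sub.2 ⟨a + x1 + y1, Finset.add_mem_add (Finset.add_mem_add ha hx1) hy1,
      x2 + y2, Finset.add_mem_add hx2 hy2, ?_⟩
    abel
  have hcpos : 0 < ((A.image (QuotientAddGroup.mk : G → G ⧸ S2)).card : ℝ) := by
    exact_mod_cast (hA.image _).card_pos
  have hdbl : ((B1 + B1).card : ℝ) ≤ M ^ 5 * (B1.card : ℝ) := by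
    have h2 : ((A.image (QuotientAddGroup.mk : G → G ⧸ S2)).card : ℝ) * ((B1 + B1).card : ℝ)
        ≤ (((A + A + A) - (A + A)).card : ℝ) := by
      exact_mod_cast hα2.trans (Finset.card_le_card hsub32)
    have h3 := plun32 hA hM
    have h4 : (A.card : ℝ)
        ≤ (B1.card : ℝ) * ((A.image (QuotientAddGroup.mk : G → G ⧸ S2)).card : ℝ) := by
      exact_mod_cast hα1
    have h5 : ((B1 + B1).card : ℝ) * ((A.image (QuotientAddGroup.mk : G → G ⧸ S2)).card : ℝ)
        ≤ (M ^ 5 * (B1.card : ℝ)) * ((A.image (QuotientAddGroup.mk : G → G ⧸ S2)).card : ℝ) := by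
      calc ((B1 + B1).card : ℝ) * ((A.image (QuotientAddGroup.mk : G → G ⧸ S2)).card : ℝ)
          = ((A.image (QuotientAddGroup.mk : G → G ⧸ S2)).card : ℝ) * ((B1 + B1).card : ℝ) := by
            ring
        _ ≤ _ := h2
        _ ≤ M ^ 5 * A.card := h3
        _ ≤ M ^ 5 * ((B1.card : ℝ)
            * ((A.image (QuotientAddGroup.mk : G → G ⧸ S2)).card : ℝ)) :=
            mul_le_mul_of_nonneg_left h4 (by positivity)
        _ = _ := by ring
    exact le_of_mul_le_mul_right h5 hcpos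
  -- apply the induction hypothesis to `B1`
  obtain ⟨H0, B', hB'sub, hB'ne, hB'H, hb1, hb2⟩ := h G S2 hS2 B1 hB1ne
    (fun a ha b hb => S2.sub_mem (hB1S2 a ha) (hB1S2 b hb)) (M ^ 5) hdbl
  set P : ℝ := (M ^ 5) ^ C with hP
  have hP1 : 1 ≤ P := one_le_pow₀ (one_le_pow₀ hM1)
  have hP0 : 0 < P := lt_of_lt_of_le one_pos hP1
  have hB'pos : 0 < (B'.card : ℝ) := by exact_mod_cast hB'ne.card_pos
  -- covering of `B1`
  have hcov1 : ((B1 + B').card : ℝ) ≤ (M ^ 5 * P) * (B'.card : ℝ) := by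
    calc ((B1 + B').card : ℝ) ≤ ((B1 + B1).card : ℝ) := by
          exact_mod_cast Finset.card_le_card (Finset.add_subset_add_left hB'sub)
      _ ≤ M ^ 5 * (B1.card : ℝ) := hdbl
      _ ≤ M ^ 5 * (P * (B'.card : ℝ)) := mul_le_mul_of_nonneg_left hb1 (by positivity)
      _ = _ := by ring
  obtain ⟨T, hTsub, hTcard, hTcov⟩ := Finset.ruzsa_covering_add hB'ne hcov1
  -- covering of the doubles of `A`
  set D : Finset G := A.image (fun a => a + a) with hD
  have hcov2 : ((D + A).card : ℝ) ≤ M ^ 3 * (A.card : ℝ) := by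
    refine le_trans ?_ (plun30 hA hM)
    have h2 : D + A ⊆ A + A + A := by
      refine Finset.add_subset_add_right ?_
      intro g hg
      obtain ⟨a, ha, rfl⟩ := Finset.mem_image.1 hg
      exact Finset.add_mem_add ha ha
    exact_mod_cast Finset.card_le_card h2
  obtain ⟨T', hT'sub, hT'card, hT'cov⟩ := Finset.ruzsa_covering_add hA hcov2
  obtain ⟨i, hi, A1, hA1sub, hA1ne, hA1p, hA1card⟩ := pigeon (T' ×ˢ T) A hA
    (fun i a => (a + a) - i.1 - i.2 ∈ H0) (fun a ha => by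
      have h2 : a + a ∈ D := Finset.mem_image.2 ⟨a, ha, rfl⟩
      obtain ⟨t', ht', d, hd, htd⟩ := Finset.mem_add.1 (hT'cov h2)
      obtain ⟨a', ha', rfl⟩ := Finset.mem_image.1 (hT'sub ht')
      have h3 : d ∈ S2 := by
        refine ⟨a - a', hAS a ha a' ha', ?_⟩
        rw [nsmulAddMonoidHom_apply, two_nsmul]
        have : d = (a + a) - (a' + a') := by rw [← htd]; abel
        rw [this]
        abel
      have h4 : d ∈ B1 := Finset.mem_filter.2 ⟨hd, h3⟩
      obtain ⟨t, ht, e, he, hte⟩ := Finset.mem_add.1 (hTcov h4)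
      obtain ⟨b, hb, b', hb', rfl⟩ := Finset.mem_sub.1 he
      refine ⟨(a' + a', t), Finset.mem_product.2 ⟨ht', ht⟩, ?_⟩
      have h5 : (a + a) - (a' + a') - t = b - b' := by
        rw [← htd, ← hte]; abel
      show (a + a) - (a' + a') - t ∈ H0
      rw [h5]
      exact hB'H b hb b' hb') (M ^ 3 * (M ^ 5 * P)) (by
        rw [Finset.card_product, Nat.cast_mul]
        exact mul_le_mul hT'card hTcard (by positivity) (by positivity))
  have hA1pos : 0 < (A1.card : ℝ) := by exact_mod_cast hA1ne.card_pos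
  -- pass to the quotient by `H0`
  set π : G →+ G ⧸ H0 := QuotientAddGroup.mk' H0 with hπ
  have hπmk : ∀ g : G, π g = (QuotientAddGroup.mk g : G ⧸ H0) := fun g => rfl
  have hπ0 : ∀ g : G, π g = 0 ↔ g ∈ H0 := fun g => QuotientAddGroup.eq_zero_iff g
  set Ab : Finset (G ⧸ H0) := A1.image π with hAb
  have hAbne : Ab.Nonempty := hA1ne.image _
  have hAbpos : 0 < (Ab.card : ℝ) := by exact_mod_cast hAbne.card_pos
  set SQ : AddSubgroup (G ⧸ H0) := (nsmulAddMonoidHom 2 : (G ⧸ H0) →+ (G ⧸ H0)).ker with hSQ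
  have hSQ1 : ∀ s ∈ SQ, (2 ^ 1) • s = 0 := by
    intro s hs
    rw [hSQ, AddMonoidHom.mem_ker, nsmulAddMonoidHom_apply] at hs
    rw [pow_one]
    exact hs
  have hAbS : ∀ a ∈ Ab, ∀ b ∈ Ab, a - b ∈ SQ := by
    intro a ha b hb
    obtain ⟨x, hx, rfl⟩ := Finset.mem_image.1 ha
    obtain ⟨y, hy, rfl⟩ := Finset.mem_image.1 hb
    rw [hSQ, AddMonoidHom.mem_ker, nsmulAddMonoidHom_apply, two_nsmul, ← map_sub, ← map_add, hπ0]
    have h2 := H0.sub_mem (hA1p x hx) (hA1p y hy)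
    have h3 : (x + x) - i.1 - i.2 - ((y + y) - i.1 - i.2) = x - y + (x - y) := by abel
    rwa [h3] at h2
  have hB'AA : B' ⊆ A - A := fun g hg => hB1AA g (hB'sub hg)
  have hsub31 : A1 + A1 + B' ⊆ (A + A + A) - A := by
    intro g hg
    obtain ⟨e, he, b, hb, rfl⟩ := Finset.mem_add.1 hg
    obtain ⟨x, hx, y, hy, rfl⟩ := Finset.mem_add.1 he
    obtain ⟨b1, hb1, b2, hb2, rfl⟩ := Finset.mem_sub.1 (hB'AA hb)
    refine Finset.mem_sub.2 ⟨x + y + b1, Finset.add_mem_add (Finset.add_mem_add (hA1sub hx)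
      (hA1sub hy)) hb1, b2, hb2, ?_⟩
    abel
  have h5r : ((Ab + Ab).card : ℝ) * (B'.card : ℝ) ≤ M ^ 4 * N := by
    have h2 : Ab + Ab = (A1 + A1).image π := by
      rw [hAb, Finset.image_add]
    have h3 := image_mul_card_le H0 (A1 + A1) B' hB'H
    have h4 : ((A1 + A1).image π).card * B'.card ≤ ((A + A + A) - A).card :=
      h3.trans (Finset.card_le_card hsub31)
    rw [h2]
    refine le_trans ?_ (plun31 hA hM)
    exact_mod_cast h4
  have h4r : (A1.card : ℝ) ≤ (Nat.card H0 : ℝ) * (Ab.card : ℝ) := card_le_mul_image' H0 A1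
  have h2r : (Nat.card H0 : ℝ) ≤ P ^ 2 * (B'.card : ℝ) := by
    calc (Nat.card H0 : ℝ) ≤ P * (B1.card : ℝ) := hb2
      _ ≤ P * (P * (B'.card : ℝ)) := mul_le_mul_of_nonneg_left hb1 hP0.le
      _ = _ := by ring
  have h6r : (A1.card : ℝ) ≤ P ^ 2 * (B'.card : ℝ) * (Ab.card : ℝ) :=
    h4r.trans (mul_le_mul_of_nonneg_right h2r hAbpos.le)
  have h7r : N ≤ M ^ 8 * P ^ 3 * (B'.card : ℝ) * (Ab.card : ℝ) := by
    calc N ≤ M ^ 3 * (M ^ 5 * P) * (A1.card : ℝ) := hA1card
      _ ≤ M ^ 3 * (M ^ 5 * P) * (P ^ 2 * (B'.card : ℝ) * (Ab.card : ℝ)) :=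
          mul_le_mul_of_nonneg_left h6r (by positivity)
      _ = _ := by ring
  set F0 : ℝ := M ^ (12 + 15 * C) with hF0
  have hF0eq : F0 = M ^ 12 * P ^ 3 := by
    rw [hF0, hP, ← pow_mul, ← pow_mul, ← pow_add]
    congr 1
    ring
  have hF01 : 1 ≤ F0 := one_le_pow₀ hM1
  have hF0pos : 0 < F0 := lt_of_lt_of_le one_pos hF01
  have hAbdbl : ((Ab + Ab).card : ℝ) ≤ F0 * (Ab.card : ℝ) := by
    have h8 : ((Ab + Ab).card : ℝ) * (B'.card : ℝ) ≤ (F0 * (Ab.card : ℝ)) * (B'.card : ℝ) := by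
      calc ((Ab + Ab).card : ℝ) * (B'.card : ℝ) ≤ M ^ 4 * N := h5r
        _ ≤ M ^ 4 * (M ^ 8 * P ^ 3 * (B'.card : ℝ) * (Ab.card : ℝ)) :=
            mul_le_mul_of_nonneg_left h7r (by positivity)
        _ = _ := by rw [hF0eq]; ring
    exact le_of_mul_le_mul_right h8 hB'pos
  obtain ⟨Hb, Ab', hAb'sub, hAb'ne, hAb'H, hz1, hz2⟩ :=
    h1 (G ⧸ H0) SQ hSQ1 Ab hAbne hAbS F0 hAbdbl
  set F : ℝ := F0 ^ C1 with hF
  have hF1 : 1 ≤ F := one_le_pow₀ hF01
  have hFpos : 0 < F := lt_of_lt_of_le one_pos hF1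
  set H1 : AddSubgroup G := Hb.comap π with hH1
  set A2 : Finset G := A1.filter (fun a => π a ∈ Ab') with hA2
  have hA2im : Ab' ⊆ A2.image π := by
    intro q hq
    obtain ⟨a, ha, rfl⟩ := Finset.mem_image.1 (hAb'sub hq)
    exact Finset.mem_image.2 ⟨a, Finset.mem_filter.2 ⟨ha, hq⟩, rfl⟩
  set Y : Finset G := A2 + B' with hY
  have hYcard : (Ab'.card : ℝ) * (B'.card : ℝ) ≤ (Y.card : ℝ) := by
    have h8 := image_mul_card_le H0 A2 B' hB'H
    have h9 : Ab'.card * B'.card ≤ (A2 + B').card :=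
      (Nat.mul_le_mul_right _ (Finset.card_le_card hA2im)).trans h8
    exact_mod_cast h9
  have hYne : Y.Nonempty := by
    obtain ⟨q, hq⟩ := hAb'ne
    obtain ⟨a, ha, _⟩ := Finset.mem_image.1 (hA2im hq)
    exact Finset.Nonempty.add ⟨a, ha⟩ hB'ne
  have hYH : ∀ y ∈ Y, ∀ y' ∈ Y, y - y' ∈ H1 := by
    intro y hy y' hy'
    obtain ⟨a, ha, b, hb, rfl⟩ := Finset.mem_add.1 hy
    obtain ⟨a', ha', b', hb', rfl⟩ := Finset.mem_add.1 hy'
    have h8 : a + b - (a' + b') = (a - a') + (b - b') := by abel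
    rw [h8]
    refine H1.add_mem ?_ ?_
    · rw [hH1, AddSubgroup.mem_comap, map_sub]
      exact hAb'H _ (Finset.mem_filter.1 ha).2 _ (Finset.mem_filter.1 ha').2
    · rw [hH1, AddSubgroup.mem_comap, (hπ0 _).2 (hB'H b hb b' hb')]
      exact Hb.zero_mem
  have hNY : N ≤ M ^ 8 * P ^ 3 * F * (Y.card : ℝ) := by
    calc N ≤ M ^ 8 * P ^ 3 * (B'.card : ℝ) * (Ab.card : ℝ) := h7r
      _ ≤ M ^ 8 * P ^ 3 * (B'.card : ℝ) * (F * (Ab'.card : ℝ)) :=
          mul_le_mul_of_nonneg_left hz1 (by positivity)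
      _ = M ^ 8 * P ^ 3 * F * ((Ab'.card : ℝ) * (B'.card : ℝ)) := by ring
      _ ≤ M ^ 8 * P ^ 3 * F * (Y.card : ℝ) := mul_le_mul_of_nonneg_left hYcard (by positivity)
  have hsubAY : A + Y ⊆ (A + A + A) - A := by
    intro g hg
    obtain ⟨x, hx, y, hy, rfl⟩ := Finset.mem_add.1 hg
    obtain ⟨a, ha, b, hb, rfl⟩ := Finset.mem_add.1 hy
    obtain ⟨b1, hb1, b2, hb2, rfl⟩ := Finset.mem_sub.1 (hB'AA hb)
    refine Finset.mem_sub.2 ⟨x + a + b1, Finset.add_mem_add (Finset.add_mem_add hx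
      (hA1sub (Finset.mem_filter.1 ha).1)) hb1, b2, hb2, ?_⟩
    abel
  have hcov3 : ((A + Y).card : ℝ) ≤ F0 ^ (C1 + 1) * (Y.card : ℝ) := by
    calc ((A + Y).card : ℝ) ≤ (((A + A + A) - A).card : ℝ) := by
          exact_mod_cast Finset.card_le_card hsubAY
      _ ≤ M ^ 4 * N := plun31 hA hM
      _ ≤ M ^ 4 * (M ^ 8 * P ^ 3 * F * (Y.card : ℝ)) :=
          mul_le_mul_of_nonneg_left hNY (by positivity)
      _ = F0 ^ (C1 + 1) * (Y.card : ℝ) := by rw [pow_succ F0 C1, ← hF, hF0eq]; ring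
  obtain ⟨T2, hT2sub, hT2card, hT2cov⟩ := Finset.ruzsa_covering_add hYne hcov3
  obtain ⟨t, ht, A3, hA3sub, hA3ne, hA3p, hA3card⟩ := pigeon T2 A hA
    (fun t a => a - t ∈ H1) (fun a ha => by
      obtain ⟨t, ht, d, hd, htd⟩ := Finset.mem_add.1 (hT2cov ha)
      obtain ⟨y, hy, y', hy', rfl⟩ := Finset.mem_sub.1 hd
      refine ⟨t, ht, ?_⟩
      show a - t ∈ H1
      rw [← htd, add_sub_cancel_left]
      exact hYH y hy y' hy') (F0 ^ (C1 + 1)) hT2card
  refine ⟨H1, A3, hA3sub, hA3ne, ?_, ?_, ?_⟩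
  · intro a ha b hb
    have h8 := H1.sub_mem (hA3p a ha) (hA3p b hb)
    have h9 : a - t - (b - t) = a - b := by abel
    rwa [h9] at h8
  · rw [pow_mul]
    exact hA3card
  · rw [pow_mul]
    -- size of `H1`
    have h8 : (Nat.card H1 : ℝ) ≤ (Nat.card H0 : ℝ) * (Nat.card Hb : ℝ) := by
      have : Fintype G := Fintype.ofFinite G
      have : Fintype (G ⧸ H0) := Fintype.ofFinite _
      have h9 := card_le_mul_image' H0 (Finset.univ.filter (fun g => g ∈ H1))
      have h10 : (Finset.univ.filter (fun g => g ∈ H1)).card = Nat.card H1 := by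
        rw [Nat.card_eq_fintype_card, Fintype.card_subtype]
      have h11 : ((Finset.univ.filter (fun g => g ∈ H1)).image
          (QuotientAddGroup.mk : G → G ⧸ H0)).card ≤ Nat.card Hb := by
        have h12 : Nat.card Hb = (Finset.univ.filter (fun q => q ∈ Hb)).card := by
          rw [Nat.card_eq_fintype_card, Fintype.card_subtype]
        rw [h12]
        refine Finset.card_le_card ?_
        intro q hq
        obtain ⟨g, hg, rfl⟩ := Finset.mem_image.1 hq
        exact Finset.mem_filter.2 ⟨Finset.mem_univ _, (Finset.mem_filter.1 hg).2⟩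
      rw [h10] at h9
      refine h9.trans (mul_le_mul_of_nonneg_left ?_ (by positivity))
      exact_mod_cast h11
    have h13 : (Ab.card : ℝ) * (B'.card : ℝ) ≤ M ^ 3 * N := by
      have h14 := image_mul_card_le H0 A1 B' hB'H
      have h15 : A1 + B' ⊆ (A + A) - A := by
        intro g hg
        obtain ⟨x, hx, b, hb, rfl⟩ := Finset.mem_add.1 hg
        obtain ⟨b1, hb1, b2, hb2, rfl⟩ := Finset.mem_sub.1 (hB'AA hb)
        refine Finset.mem_sub.2 ⟨x + b1, Finset.add_mem_add (hA1sub hx) hb1, b2, hb2, ?_⟩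
        abel
      refine le_trans ?_ (plun21 hA hM)
      have h16 : (A1.image π).card * B'.card ≤ ((A + A) - A).card :=
        h14.trans (Finset.card_le_card h15)
      exact_mod_cast h16
    calc (Nat.card H1 : ℝ) ≤ (Nat.card H0 : ℝ) * (Nat.card Hb : ℝ) := h8
      _ ≤ (P ^ 2 * (B'.card : ℝ)) * (F * (Ab.card : ℝ)) :=
          mul_le_mul h2r hz2 (by positivity) (by positivity)
      _ = P ^ 2 * F * ((Ab.card : ℝ) * (B'.card : ℝ)) := by ring
      _ ≤ P ^ 2 * F * (M ^ 3 * N) := mul_le_mul_of_nonneg_left h13 (by positivity)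
      _ = (M ^ 3 * P ^ 2) * F * N := by ring
      _ ≤ (M ^ 12 * P ^ 3) * F * N := by
          have h17 : M ^ 3 * P ^ 2 ≤ M ^ 12 * P ^ 3 :=
            mul_le_mul (pow_le_pow_right₀ hM1 (by norm_num)) (pow_le_pow_right₀ hP1 (by norm_num))
              (by positivity) (by positivity)
          exact mul_le_mul_of_nonneg_right (mul_le_mul_of_nonneg_right h17 hFpos.le) hNpos.le
      _ = F0 ^ (C1 + 1) * N := by rw [pow_succ F0 C1, ← hF, hF0eq]; ring

/-- Polynomial Freiman–Ruzsa for every exponent `2^K`. -/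
theorem pfrs_all {C1 : ℕ} (h : PFR1 C1) (K : ℕ) : ∃ C : ℕ, PFRS K C := by
  induction K with
  | zero =>
    refine ⟨0, ?_⟩
    intro G _ _ _ S hS A hA hAS M hM
    refine ⟨⊥, A, Finset.Subset.refl _, hA, ?_, ?_, ?_⟩
    · intro a ha b hb
      have h1 := hS _ (hAS a ha b hb)
      rw [pow_zero, one_nsmul] at h1
      rw [h1]
      exact AddSubgroup.zero_mem _
    · rw [pow_zero, one_mul]
    · rw [pow_zero, one_mul]
      have h2 : 1 ≤ A.card := hA.card_pos
      simp only [AddSubgroup.card_bot, Nat.cast_one]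
      exact_mod_cast h2
  | succ K ih =>
    obtain ⟨C, hC⟩ := ih
    exact ⟨_, pfrs_succ hC (pfrs_one h)⟩

/-- Export: groups with `2^K G = 0`. -/
theorem pfrk {C1 : ℕ} (h : PFR1 C1) (K : ℕ) : ∃ C : ℕ, ∀ (G : Type) [AddCommGroup G] [Finite G]
    [DecidableEq G], (∀ g : G, (2 ^ K) • g = 0) → ∀ A : Finset G, A.Nonempty → ∀ M : ℝ,
      ((A + A).card : ℝ) ≤ M * A.card → Pop C A M := by
  obtain ⟨C, hC⟩ := pfrs_all h K
  refine ⟨C, ?_⟩
  intro G _ _ _ hG A hA M hM
  exact hC G ⊤ (fun s _ => hG s) A hA (fun _ _ _ _ => AddSubgroup.mem_top _) M hM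

end BSG
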