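import Pool.Agent.Lib.BSG.BSG
import Pool.Agent.Lib.BSG.PFRK

/-!
# Approximate duality for bicharacters on groups of exponent `2^K`
-/

set_option autoImplicit false

open Finset
open scoped Pointwise ComplexConjugate

namespace BSG

section character

variable {G G' : Type} [AddCommGroup G] [Fintype G] [AddCommGroup G'] [Fintype G']

/-- bimultiplicative map into the unit circle -/
structure Bich (χ : G → G' → ℂ) : Prop where
  norm : ∀ x y, ‖χ x y‖ = 1
  add_left : ∀ x x' y, χ (x + x') y = χ x y * χ x' y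
  add_right : ∀ x y y', χ x (y + y') = χ x y * χ x y'

/-- probability weights -/
structure Pr {X : Type} [Fintype X] (μ : X → ℝ) : Prop where
  nonneg : ∀ x, 0 ≤ μ x
  sum : ∑ x, μ x = 1

variable {χ : G → G' → ℂ} (hχ : Bich χ)

include hχ

omit [Fintype G] [Fintype G'] in
theorem Bich.ne_zero (x : G) (y : G') : χ x y ≠ 0 := by
  intro h
  have := hχ.norm x y
  rw [h, norm_zero] at this
  exact zero_ne_one this

omit [Fintype G] [Fintype G'] in
theorem Bich.zero_left (y : G') : χ 0 y = 1 := by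
  have h := hχ.add_left 0 0 y
  rw [add_zero] at h
  have h2 := hχ.ne_zero 0 y
  exact (mul_right_cancel₀ h2 (by rw [one_mul]; exact h)).symm

omit [Fintype G] [Fintype G'] in
theorem Bich.neg_left (x : G) (y : G') : χ (-x) y = conj (χ x y) := by
  have h := hχ.add_left (-x) x y
  rw [neg_add_cancel, hχ.zero_left] at h
  rw [← Complex.inv_eq_conj (hχ.norm x y)]
  exact eq_inv_of_mul_eq_one_left h.symm

omit [Fintype G] [Fintype G'] in
theorem Bich.sub_left (x x' : G) (y : G') : χ (x - x') y = χ x y * conj (χ x' y) := by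
  rw [sub_eq_add_neg, hχ.add_left, hχ.neg_left]

omit [Fintype G] [Fintype G'] in
theorem Bich.zero_right (x : G) : χ x 0 = 1 := by
  have h := hχ.add_right x 0 0
  rw [add_zero] at h
  have h2 := hχ.ne_zero x 0
  exact (mul_right_cancel₀ h2 (by rw [one_mul]; exact h)).symm

omit [Fintype G] [Fintype G'] in
theorem Bich.neg_right (x : G) (y : G') : χ x (-y) = conj (χ x y) := by
  have h := hχ.add_right x (-y) y
  rw [neg_add_cancel, hχ.zero_right] at h
  rw [← Complex.inv_eq_conj (hχ.norm x y)]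
  exact eq_inv_of_mul_eq_one_left h.symm

omit [Fintype G] [Fintype G'] in
theorem Bich.sub_right (x : G) (y y' : G') : χ x (y - y') = χ x y * conj (χ x y') := by
  rw [sub_eq_add_neg, hχ.add_right, hχ.neg_right]

omit hχ in
/-- the transform of `μ'` -/
noncomputable def tf (χ : G → G' → ℂ) (μ' : G' → ℝ) (x : G) : ℂ := ∑ y, (μ' y : ℂ) * χ x y

omit [Fintype G] in
theorem tf_norm_le {μ' : G' → ℝ} (hμ' : Pr μ') (x : G) : ‖tf χ μ' x‖ ≤ 1 := by
  unfold tf
  calc ‖∑ y, (μ' y : ℂ) * χ x y‖ ≤ ∑ y, ‖(μ' y : ℂ) * χ x y‖ := norm_sum_le _ _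
    _ = ∑ y, μ' y := by
        refine Finset.sum_congr rfl (fun y _ => ?_)
        rw [norm_mul, hχ.norm, mul_one, Complex.norm_real, Real.norm_eq_abs,
          abs_of_nonneg (hμ'.nonneg y)]
    _ = 1 := hμ'.sum

omit [Fintype G] in
/-- Cauchy–Schwarz: many differences have large transform. -/
theorem tf_cs {μ' : G' → ℝ} (hμ' : Pr μ') (A : Finset G) (ρ : ℝ) (hρ : 0 < ρ)
    (hA : ∀ x ∈ A, ρ ≤ ‖tf χ μ' x‖) :
    ρ ^ 2 * (A.card : ℝ) ^ 2 ≤ ∑ x ∈ A, ∑ x' ∈ A, ‖tf χ μ' (x - x')‖ := by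
  set f := tf χ μ' with hf
  set c : G → ℂ := fun x => conj (f x) / (‖f x‖ : ℂ) with hc
  have hcf : ∀ x ∈ A, c x * f x = (‖f x‖ : ℂ) := by
    intro x hx
    have h1 : (‖f x‖ : ℂ) ≠ 0 := by
      have := hρ.trans_le (hA x hx)
      exact_mod_cast this.ne'
    simp only [hc]
    rw [div_mul_eq_mul_div, div_eq_iff h1, mul_comm (conj (f x)), Complex.mul_conj,
      Complex.normSq_eq_norm_sq]
    push_cast
    ring
  have hcn : ∀ x ∈ A, ‖c x‖ = 1 := by
    intro x hx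
    have h1 : 0 < ‖f x‖ := hρ.trans_le (hA x hx)
    simp only [hc]
    rw [norm_div, RCLike.norm_conj, Complex.norm_real, norm_norm, div_self h1.ne']
  set g : G' → ℂ := fun y => ∑ x ∈ A, c x * χ x y with hg
  have h1 : ρ * (A.card : ℝ) ≤ ∑ y, μ' y * ‖g y‖ := by
    have h2 : ∑ x ∈ A, c x * f x = ∑ y, (μ' y : ℂ) * g y := by
      simp only [hg, hf, tf, Finset.mul_sum]
      rw [Finset.sum_comm]
      refine Finset.sum_congr rfl (fun y _ => Finset.sum_congr rfl (fun x _ => ?_))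
      ring
    have h3 : ρ * (A.card : ℝ) ≤ ‖∑ x ∈ A, c x * f x‖ := by
      rw [Finset.sum_congr rfl hcf, ← Complex.ofReal_sum, Complex.norm_real, Real.norm_eq_abs,
        abs_of_nonneg (Finset.sum_nonneg (fun _ _ => norm_nonneg _))]
      calc ρ * (A.card : ℝ) = ∑ x ∈ A, ρ := by rw [Finset.sum_const, nsmul_eq_mul, mul_comm]
        _ ≤ ∑ x ∈ A, ‖f x‖ := Finset.sum_le_sum hA
    rw [h2] at h3
    refine h3.trans ((norm_sum_le _ _).trans (le_of_eq ?_))
    refine Finset.sum_congr rfl (fun y _ => ?_)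
    rw [norm_mul, Complex.norm_real, Real.norm_eq_abs, abs_of_nonneg (hμ'.nonneg y)]
  have h4 : (∑ y, μ' y * ‖g y‖) ^ 2 ≤ ∑ y, μ' y * ‖g y‖ ^ 2 := by
    have h5 := Finset.sum_sq_le_sum_mul_sum_of_sq_le_mul (Finset.univ : Finset G')
      (r := fun y => μ' y * ‖g y‖) (f := μ') (g := fun y => μ' y * ‖g y‖ ^ 2)
      (fun y _ => hμ'.nonneg y) (fun y _ => mul_nonneg (hμ'.nonneg y) (sq_nonneg _))
      (fun y _ => le_of_eq (by ring))
    rw [hμ'.sum, one_mul] at h5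
    exact h5
  have h6 : ((∑ y, μ' y * ‖g y‖ ^ 2 : ℝ) : ℂ)
      = ∑ x ∈ A, ∑ x' ∈ A, c x * conj (c x') * f (x - x') := by
    push_cast
    have h7 : ∀ y, (μ' y : ℂ) * (‖g y‖ : ℂ) ^ 2
        = ∑ x ∈ A, ∑ x' ∈ A, c x * conj (c x') * ((μ' y : ℂ) * χ (x - x') y) := by
      intro y
      have h8 : (‖g y‖ : ℂ) ^ 2 = g y * conj (g y) := by
        rw [Complex.mul_conj, Complex.normSq_eq_norm_sq]; push_cast; rfl
      rw [h8]
      simp only [hg]
      rw [map_sum, Finset.sum_mul_sum, Finset.mul_sum]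
      refine Finset.sum_congr rfl (fun x _ => ?_)
      rw [Finset.mul_sum]
      refine Finset.sum_congr rfl (fun x' _ => ?_)
      rw [hχ.sub_left, map_mul]
      ring
    rw [Finset.sum_congr rfl (fun y _ => h7 y), Finset.sum_comm]
    refine Finset.sum_congr rfl (fun x _ => ?_)
    rw [Finset.sum_comm]
    refine Finset.sum_congr rfl (fun x' _ => ?_)
    rw [← Finset.mul_sum]
    rfl
  have h9 : ∑ y, μ' y * ‖g y‖ ^ 2 ≤ ∑ x ∈ A, ∑ x' ∈ A, ‖f (x - x')‖ := by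
    have h10 : ∑ y, μ' y * ‖g y‖ ^ 2 = ‖((∑ y, μ' y * ‖g y‖ ^ 2 : ℝ) : ℂ)‖ := by
      rw [Complex.norm_real, Real.norm_eq_abs, abs_of_nonneg]
      exact Finset.sum_nonneg (fun y _ => mul_nonneg (hμ'.nonneg y) (sq_nonneg _))
    rw [h10, h6]
    refine (norm_sum_le _ _).trans (Finset.sum_le_sum (fun x hx => ?_))
    refine (norm_sum_le _ _).trans (Finset.sum_le_sum (fun x' hx' => ?_))
    rw [norm_mul, norm_mul, RCLike.norm_conj, hcn x hx, hcn x' hx', one_mul, one_mul]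
  calc ρ ^ 2 * (A.card : ℝ) ^ 2 = (ρ * (A.card : ℝ)) ^ 2 := by ring
    _ ≤ (∑ y, μ' y * ‖g y‖) ^ 2 := pow_le_pow_left₀ (by positivity) h1 2
    _ ≤ _ := h4
    _ ≤ _ := h9

omit [Fintype G'] in
/-- orthogonality on a subgroup -/
theorem sum_subgroup (H : AddSubgroup G) [DecidablePred (fun g => g ∈ H)] (z : G')
    (hz : ∃ h ∈ H, χ h z ≠ 1) : ∑ h ∈ Finset.univ.filter (fun g => g ∈ H), χ h z = 0 := by
  obtain ⟨h₀, hh₀, hne⟩ := hz
  set S := ∑ h ∈ Finset.univ.filter (fun g => g ∈ H), χ h z with hS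
  have h1 : S = χ h₀ z * S := by
    conv_lhs => rw [hS]
    rw [hS, Finset.mul_sum]
    refine Finset.sum_bij' (fun h _ => h - h₀) (fun h _ => h + h₀) ?_ ?_ ?_ ?_ ?_
    · intro h hh
      exact Finset.mem_filter.2 ⟨Finset.mem_univ _, H.sub_mem (Finset.mem_filter.1 hh).2 hh₀⟩
    · intro h hh
      exact Finset.mem_filter.2 ⟨Finset.mem_univ _, H.add_mem (Finset.mem_filter.1 hh).2 hh₀⟩
    · intro h _; exact sub_add_cancel _ _
    · intro h _; exact add_sub_cancel_right _ _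
    · intro h _
      rw [← hχ.add_left, add_sub_cancel]
  have h2 : (χ h₀ z - 1) * S = 0 := by
    rw [sub_mul, one_mul, sub_eq_zero]; exact h1.symm
  rcases mul_eq_zero.1 h2 with h | h
  · exact absurd (sub_eq_zero.1 h) hne
  · exact h

/-- Parseval on a coset: a large transform on a clump gives a popular coset of the annihilator. -/
theorem clump_dual {μ' : G' → ℝ} (hμ' : Pr μ') (H : AddSubgroup G) (A : Finset G)
    (hne : A.Nonempty) (hH : ∀ a ∈ A, ∀ b ∈ A, a - b ∈ H) (ρ : ℝ) (hρ : 0 ≤ ρ)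
    (hA : ∀ x ∈ A, ρ ≤ ‖tf χ μ' x‖) :
    ∃ y0 : G', ρ ^ 2 * (A.card : ℝ) ≤ (Nat.card H : ℝ)
      * ∑ y ∈ (Set.toFinite {y : G' | ∀ h ∈ H, χ h y = χ h y0}).toFinset, μ' y := by
  classical
  set f := tf χ μ' with hf
  set cls : G' → Finset G' := fun y0 => (Set.toFinite {y : G' | ∀ h ∈ H, χ h y = χ h y0}).toFinset
    with hcls
  obtain ⟨x0, hx0⟩ := hne
  set HF : Finset G := Finset.univ.filter (fun g => g ∈ H) with hHF
  have hHcard : (HF.card : ℝ) = (Nat.card H : ℝ) := by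
    rw [Nat.card_eq_fintype_card, Fintype.card_subtype]
  have h1 : ρ ^ 2 * (A.card : ℝ) ≤ ∑ h ∈ HF, ‖f (x0 + h)‖ ^ 2 := by
    calc ρ ^ 2 * (A.card : ℝ) = ∑ x ∈ A, ρ ^ 2 := by
          rw [Finset.sum_const, nsmul_eq_mul, mul_comm]
      _ ≤ ∑ x ∈ A, ‖f x‖ ^ 2 :=
          Finset.sum_le_sum (fun x hx => pow_le_pow_left₀ hρ (hA x hx) 2)
      _ = ∑ h ∈ A.image (fun x => x - x0), ‖f (x0 + h)‖ ^ 2 := by
          rw [Finset.sum_image (fun a _ b _ h => sub_left_injective h)]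
          refine Finset.sum_congr rfl (fun x _ => ?_)
          rw [add_sub_cancel]
      _ ≤ ∑ h ∈ HF, ‖f (x0 + h)‖ ^ 2 := by
          refine Finset.sum_le_sum_of_subset_of_nonneg ?_ (fun _ _ _ => sq_nonneg _)
          intro h hh
          obtain ⟨x, hx, rfl⟩ := Finset.mem_image.1 hh
          exact Finset.mem_filter.2 ⟨Finset.mem_univ _, hH x hx x0 hx0⟩
  have h2 : ((∑ h ∈ HF, ‖f (x0 + h)‖ ^ 2 : ℝ) : ℂ)
      = ∑ y, ∑ y', (μ' y : ℂ) * (μ' y' : ℂ) * χ x0 (y - y') * ∑ h ∈ HF, χ h (y - y') := by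
    push_cast
    have h3 : ∀ h, (‖f (x0 + h)‖ : ℂ) ^ 2
        = ∑ y, ∑ y', (μ' y : ℂ) * (μ' y' : ℂ) * χ x0 (y - y') * χ h (y - y') := by
      intro h
      have h8 : (‖f (x0 + h)‖ : ℂ) ^ 2 = f (x0 + h) * conj (f (x0 + h)) := by
        rw [Complex.mul_conj, Complex.normSq_eq_norm_sq]; push_cast; rfl
      rw [h8]
      simp only [hf, tf]
      rw [map_sum, Finset.sum_mul_sum]
      refine Finset.sum_congr rfl (fun y _ => Finset.sum_congr rfl (fun y' _ => ?_))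
      rw [map_mul, Complex.conj_ofReal, hχ.add_left, hχ.add_left, hχ.sub_right, hχ.sub_right,
        map_mul]
      ring
    rw [Finset.sum_congr rfl (fun h _ => h3 h), Finset.sum_comm]
    refine Finset.sum_congr rfl (fun y _ => ?_)
    rw [Finset.sum_comm]
    refine Finset.sum_congr rfl (fun y' _ => ?_)
    rw [Finset.mul_sum]
  have h4 : ∑ h ∈ HF, ‖f (x0 + h)‖ ^ 2
      ≤ ∑ y, ∑ y' ∈ cls y, μ' y * μ' y' * (Nat.card H : ℝ) := by
    have h5 : ∑ h ∈ HF, ‖f (x0 + h)‖ ^ 2 = ‖((∑ h ∈ HF, ‖f (x0 + h)‖ ^ 2 : ℝ) : ℂ)‖ := by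
      rw [Complex.norm_real, Real.norm_eq_abs, abs_of_nonneg]
      exact Finset.sum_nonneg (fun y _ => sq_nonneg _)
    rw [h5, h2]
    refine (norm_sum_le _ _).trans (Finset.sum_le_sum (fun y _ => ?_))
    refine (norm_sum_le _ _).trans ?_
    rw [← Finset.sum_subset (Finset.subset_univ (cls y))]
    · refine Finset.sum_le_sum (fun y' _ => ?_)
      rw [norm_mul, norm_mul, norm_mul, hχ.norm, mul_one, Complex.norm_real, Complex.norm_real,
        Real.norm_eq_abs, Real.norm_eq_abs, abs_of_nonneg (hμ'.nonneg y),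
        abs_of_nonneg (hμ'.nonneg y')]
      refine mul_le_mul_of_nonneg_left ?_ (mul_nonneg (hμ'.nonneg y) (hμ'.nonneg y'))
      refine (norm_sum_le _ _).trans ?_
      rw [Finset.sum_congr rfl (fun h _ => hχ.norm h (y - y')), Finset.sum_const, nsmul_eq_mul,
        mul_one, hHcard]
    · intro y' _ hy'
      have h6 : ∃ h ∈ H, χ h (y - y') ≠ 1 := by
        by_contra hcon
        push Not at hcon
        refine hy' ?_
        rw [hcls]
        simp only [Set.Finite.mem_toFinset, Set.mem_ofPred_eq]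
        intro h hh
        have h7 := hcon h hh
        rw [hχ.sub_right] at h7
        have h8 : χ h y * (χ h y')⁻¹ = 1 := by
          rw [Complex.inv_eq_conj (hχ.norm h y')]; exact h7
        exact (mul_inv_eq_one₀ (hχ.ne_zero h y')).1 h8 |>.symm
      rw [sum_subgroup hχ H (y - y') h6, mul_zero, norm_zero]
  -- maximal class
  have hne' : (Finset.univ : Finset G').Nonempty := ⟨0, Finset.mem_univ _⟩
  obtain ⟨y0, -, hy0⟩ := Finset.exists_max_image Finset.univ (fun y => ∑ y' ∈ cls y, μ' y') hne'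
  refine ⟨y0, ?_⟩
  calc ρ ^ 2 * (A.card : ℝ) ≤ _ := h1
    _ ≤ _ := h4
    _ = ∑ y, μ' y * (Nat.card H : ℝ) * ∑ y' ∈ cls y, μ' y' := by
        refine Finset.sum_congr rfl (fun y _ => ?_)
        rw [Finset.mul_sum]
        refine Finset.sum_congr rfl (fun y' _ => ?_)
        ring
    _ ≤ ∑ y, μ' y * (Nat.card H : ℝ) * ∑ y' ∈ cls y0, μ' y' := by
        refine Finset.sum_le_sum (fun y _ => ?_)
        exact mul_le_mul_of_nonneg_left (hy0 y (Finset.mem_univ _))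
          (mul_nonneg (hμ'.nonneg y) (by positivity))
    _ = (Nat.card H : ℝ) * ∑ y' ∈ cls y0, μ' y' := by
        rw [← Finset.sum_mul, ← Finset.sum_mul, hμ'.sum, one_mul]

end character

section chain

variable {G : Type} [AddCommGroup G] [Fintype G] [DecidableEq G]

/-- the functions for which differences of large points are often large -/
structure Lg (F : G → ℝ) : Prop where
  le_one : ∀ x, F x ≤ 1
  cs : ∀ (A : Finset G) (ρ : ℝ), 0 < ρ → (∀ x ∈ A, ρ ≤ F x) →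
    ρ ^ 2 * (A.card : ℝ) ^ 2 ≤ ∑ x ∈ A, ∑ x' ∈ A, F (x - x')

/-- one step: a dyadic level set of popular differences with large transform -/
theorem dy_step {F : G → ℝ} (hF : Lg F) {n : ℕ} (hn : Fintype.card G ≤ 2 ^ n) {A : Finset G}
    (hA : A.Nonempty) {ρ : ℝ} (hρ : 0 < ρ) (hAρ : ∀ x ∈ A, ρ ≤ F x) :
    ∃ (A1 : Finset G) (t : ℕ), A1.Nonempty ∧ (∀ z ∈ A1, ρ ^ 2 / 2 ≤ F z ∧ t ≤ rep A z) ∧
      ρ ^ 2 * (A.card : ℝ) ^ 2 ≤ 4 * ((n : ℝ) + 1) * ((t : ℝ) * (A1.card : ℝ)) := by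
  classical
  have hApos : 0 < (A.card : ℝ) := by exact_mod_cast hA.card_pos
  set P : Finset (G × G) := (A ×ˢ A).filter (fun p => ρ ^ 2 / 2 ≤ F (p.1 - p.2)) with hP
  have hPcard : ρ ^ 2 * (A.card : ℝ) ^ 2 / 2 ≤ (P.card : ℝ) := by
    have h1 := hF.cs A ρ hρ hAρ
    rw [← Finset.sum_product'] at h1
    have h2 : ∑ p ∈ A ×ˢ A, F (p.1 - p.2)
        ≤ ∑ p ∈ A ×ˢ A, (ρ ^ 2 / 2 + (if ρ ^ 2 / 2 ≤ F (p.1 - p.2) then (1 : ℝ) else 0)) := by
      refine Finset.sum_le_sum (fun p _ => ?_)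
      split_ifs with h
      · have := hF.le_one (p.1 - p.2)
        have : 0 < ρ ^ 2 / 2 := by positivity
        linarith
      · rw [add_zero]; exact (not_le.1 h).le
    rw [Finset.sum_add_distrib, Finset.sum_const, nsmul_eq_mul, card_product, Finset.sum_boole] at h2
    push_cast at h2
    have h3 : (P.card : ℝ) = (((A ×ˢ A).filter (fun p => ρ ^ 2 / 2 ≤ F (p.1 - p.2))).card : ℝ) :=
      rfl
    nlinarith [h1, h2, h3]
  have hrep : ∀ p ∈ P, 1 ≤ rep A (p.1 - p.2) ∧ rep A (p.1 - p.2) < 2 ^ (n + 1) := by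
    intro p hp
    have hp1 := (Finset.mem_filter.1 hp).1
    constructor
    · have : 0 < rep A (p.1 - p.2) :=
        Finset.card_pos.2 ⟨p, Finset.mem_filter.2 ⟨hp1, rfl⟩⟩
      exact this
    · have h1 : rep A (p.1 - p.2) ≤ Fintype.card G := by
        unfold rep
        refine le_trans (Finset.card_le_card_of_injOn (t := A) (fun p => p.1) ?_ ?_)
          (Finset.card_le_univ A)
        · intro q hq
          exact (mem_product.1 (mem_filter.1 hq).1).1
        · intro q hq q' hq' h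
          rw [Finset.mem_coe, Finset.mem_filter] at hq hq'
          refine Prod.ext h ?_
          have h4 := hq.2.trans hq'.2.symm
          simp only at h
          rw [h] at h4
          exact sub_right_injective h4
      calc rep A (p.1 - p.2) ≤ 2 ^ n := h1.trans hn
        _ < 2 ^ (n + 1) := Nat.pow_lt_pow_right (by norm_num) (by omega)
  set Z : ℕ → Finset G := fun i => Finset.univ.filter (fun z => ρ ^ 2 / 2 ≤ F z ∧ 2 ^ i ≤ rep A z ∧
    rep A z < 2 ^ (i + 1)) with hZ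
  have hPsum : P.card ≤ ∑ i ∈ Finset.range (n + 1), (Z i).card * 2 ^ (i + 1) := by
    have h1 : P.card = ∑ i ∈ Finset.range (n + 1),
        (P.filter (fun p => Nat.log 2 (rep A (p.1 - p.2)) = i)).card := by
      refine Finset.card_eq_sum_card_fiberwise (fun p hp => ?_)
      have h2 := hrep p hp
      rw [Finset.mem_coe, Finset.mem_range]
      exact Nat.log_lt_of_lt_pow (by omega) h2.2
    rw [h1]
    refine Finset.sum_le_sum (fun i _ => ?_)
    have h2 : P.filter (fun p => Nat.log 2 (rep A (p.1 - p.2)) = i)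
        ⊆ (Z i).biUnion (fun z => (A ×ˢ A).filter (fun p => p.1 - p.2 = z)) := by
      intro p hp
      rw [Finset.mem_filter] at hp
      have hp1 := Finset.mem_filter.1 hp.1
      have h3 := hrep p hp.1
      refine Finset.mem_biUnion.2 ⟨p.1 - p.2, Finset.mem_filter.2 ⟨Finset.mem_univ _, hp1.2, ?_, ?_⟩,
        Finset.mem_filter.2 ⟨hp1.1, rfl⟩⟩
      · rw [← hp.2]
        exact Nat.pow_log_le_self 2 (by omega)
      · rw [← hp.2]
        exact Nat.lt_pow_succ_log_self (by norm_num) _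
    refine (Finset.card_le_card h2).trans (Finset.card_biUnion_le.trans ?_)
    refine (Finset.sum_le_card_nsmul _ _ (2 ^ (i + 1)) (fun z hz => ?_)).trans (by rw [smul_eq_mul])
    exact (Finset.mem_filter.1 hz).2.2.2.le
  obtain ⟨i, hi, himax⟩ := Finset.exists_max_image (Finset.range (n + 1))
    (fun i => (Z i).card * 2 ^ (i + 1)) ⟨0, Finset.mem_range.2 (by omega)⟩
  have h3 : P.card ≤ (n + 1) * ((Z i).card * 2 ^ (i + 1)) := by
    refine hPsum.trans ?_
    have h4 := Finset.sum_le_card_nsmul _ _ _ himax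
    rwa [Finset.card_range, smul_eq_mul] at h4
  have h4 : (P.card : ℝ) ≤ ((n : ℝ) + 1) * (((Z i).card : ℝ) * (2 ^ (i + 1) : ℝ)) := by
    exact_mod_cast h3
  have h5 : ρ ^ 2 * (A.card : ℝ) ^ 2
      ≤ 4 * ((n : ℝ) + 1) * (((2 ^ i : ℕ) : ℝ) * ((Z i).card : ℝ)) := by
    have h6 : (2 ^ (i + 1) : ℝ) = 2 * ((2 ^ i : ℕ) : ℝ) := by push_cast; ring
    rw [h6] at h4
    nlinarith [hPcard, h4]
  refine ⟨Z i, 2 ^ i, ?_, fun z hz => ?_, h5⟩
  · rw [← Finset.card_pos]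
    by_contra h7
    have h8 : (Z i).card = 0 := by omega
    rw [h8, Nat.cast_zero, mul_zero, mul_zero] at h5
    have : 0 < ρ ^ 2 * (A.card : ℝ) ^ 2 := by positivity
    linarith
  · have h9 := (Finset.mem_filter.1 hz).2
    exact ⟨h9.1, h9.2.1⟩

omit [Fintype G] in
/-- popular cosets descend -/
theorem descend {n : ℕ} {A A1 : Finset G} (hA : A.Nonempty) {ρ : ℝ} {t : ℕ}
    (ht : ∀ z ∈ A1, t ≤ rep A z)
    (h1 : ρ ^ 2 * (A.card : ℝ) ^ 2 ≤ 4 * ((n : ℝ) + 1) * ((t : ℝ) * (A1.card : ℝ)))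
    (H : AddSubgroup G) [DecidablePred (fun g => g ∈ H)] (η : ℝ) (hη : 0 ≤ η) (x : G)
    (hx : η * (A1.card : ℝ) ≤ ((A1.filter (fun a => a - x ∈ H)).card : ℝ)) :
    ∃ x' : G, ρ ^ 2 / (4 * ((n : ℝ) + 1)) * η * (A.card : ℝ)
      ≤ ((A.filter (fun a => a - x' ∈ H)).card : ℝ) := by
  classical
  have hApos : 0 < (A.card : ℝ) := by exact_mod_cast hA.card_pos
  have h2 : t * (A1.filter (fun a => a - x ∈ H)).card
      ≤ ∑ x' ∈ A, (A.filter (fun a => a - (x' + x) ∈ H)).card := by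
    have h3 : t * (A1.filter (fun a => a - x ∈ H)).card
        ≤ ∑ z ∈ A1.filter (fun a => a - x ∈ H), rep A z := by
      rw [mul_comm, ← smul_eq_mul]
      exact Finset.card_nsmul_le_sum _ _ _ (fun z hz => ht z (Finset.mem_filter.1 hz).1)
    refine h3.trans ?_
    unfold rep
    rw [← Finset.card_biUnion, ← Finset.card_sigma]
    · refine Finset.card_le_card_of_injOn (fun p => (⟨p.2, p.1⟩ : Σ _ : G, G)) ?_ ?_
      · intro p hp
        rw [Finset.mem_coe, Finset.mem_biUnion] at hp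
        obtain ⟨z, hz, hpz⟩ := hp
        rw [Finset.mem_filter, Finset.mem_product] at hpz
        rw [Finset.mem_filter] at hz
        rw [Finset.mem_coe, Finset.mem_sigma]
        refine ⟨hpz.1.2, Finset.mem_filter.2 ⟨hpz.1.1, ?_⟩⟩
        have h4 : p.1 - (p.2 + x) = z - x := by rw [← hpz.2]; abel
        show p.1 - (p.2 + x) ∈ H
        rw [h4]
        exact hz.2
      · intro p _ q _ h
        simp only [Sigma.mk.injEq, heq_eq_eq] at h
        exact Prod.ext h.2 h.1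
    · intro u _ v _ huv
      simp only [Function.onFun]
      rw [Finset.disjoint_left]
      intro p hp hq
      exact huv ((Finset.mem_filter.1 hp).2.symm.trans (Finset.mem_filter.1 hq).2)
  have h5 : (t : ℝ) * (η * (A1.card : ℝ))
      ≤ ∑ x' ∈ A, ((A.filter (fun a => a - (x' + x) ∈ H)).card : ℝ) := by
    have h6 : (t : ℝ) * ((A1.filter (fun a => a - x ∈ H)).card : ℝ)
        ≤ ∑ x' ∈ A, ((A.filter (fun a => a - (x' + x) ∈ H)).card : ℝ) := by exact_mod_cast h2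
    exact (mul_le_mul_of_nonneg_left hx (by positivity)).trans h6
  have h7 : ∑ x' ∈ A, (ρ ^ 2 / (4 * ((n : ℝ) + 1)) * η * (A.card : ℝ))
      ≤ ∑ x' ∈ A, ((A.filter (fun a => a - (x' + x) ∈ H)).card : ℝ) := by
    refine le_trans ?_ h5
    rw [Finset.sum_const, nsmul_eq_mul]
    have h8 : (A.card : ℝ) * (ρ ^ 2 / (4 * ((n : ℝ) + 1)) * η * (A.card : ℝ))
        = η / (4 * ((n : ℝ) + 1)) * (ρ ^ 2 * (A.card : ℝ) ^ 2) := by
      field_simp
    rw [h8]
    calc η / (4 * ((n : ℝ) + 1)) * (ρ ^ 2 * (A.card : ℝ) ^ 2)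
        ≤ η / (4 * ((n : ℝ) + 1)) * (4 * ((n : ℝ) + 1) * ((t : ℝ) * (A1.card : ℝ))) :=
          mul_le_mul_of_nonneg_left h1 (by positivity)
      _ = (t : ℝ) * (η * (A1.card : ℝ)) := by field_simp
  obtain ⟨x', _, hx'⟩ := Finset.exists_le_of_sum_le hA h7
  exact ⟨x' + x, hx'⟩

/-- The chain: after boundedly many steps the level sets stop growing. -/
theorem chain {F : G → ℝ} (hF : Lg F) {n : ℕ} (hn : Fintype.card G ≤ 2 ^ n) {Λ : ℝ} (hΛ : 1 ≤ Λ)
    (j : ℕ) : ∀ (A : Finset G), A.Nonempty → ∀ u : ℝ, 0 < u → u ≤ 1 → (∀ x ∈ A, 2 * u ≤ F x) →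
      (2 : ℝ) ^ n < (A.card : ℝ) * Λ ^ j →
      ∃ (B : Finset G) (ρ κ : ℝ), B.Nonempty ∧ (u / (n + 1)) ^ (4 ^ (j + 1)) ≤ ρ ∧
        (u / (n + 1)) ^ (4 ^ (j + 1)) ≤ κ ∧ (∀ x ∈ B, ρ ≤ F x) ∧
        ρ ^ 4 * (B.card : ℝ) ^ 3 ≤ 16 * ((n : ℝ) + 1) ^ 2 * Λ * (B.addEnergy B : ℝ) ∧
        ∀ (H : AddSubgroup G) [DecidablePred (fun g => g ∈ H)] (η : ℝ), 0 ≤ η → ∀ x : G,
          η * (B.card : ℝ) ≤ ((B.filter (fun a => a - x ∈ H)).card : ℝ) →
          ∃ x' : G, κ * η * (A.card : ℝ) ≤ ((A.filter (fun a => a - x' ∈ H)).card : ℝ) := by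
  classical
  have hn0 : (0 : ℝ) < (n : ℝ) + 1 := by positivity
  induction j with
  | zero =>
    intro A hA u hu hu1 hAu hbig
    exfalso
    rw [pow_zero, mul_one] at hbig
    have h1 : (A.card : ℝ) ≤ (2 : ℝ) ^ n := by
      exact_mod_cast (Finset.card_le_univ A).trans hn
    linarith
  | succ j ih =>
    intro A hA u hu hu1 hAu hbig
    have hApos : 0 < (A.card : ℝ) := by exact_mod_cast hA.card_pos
    obtain ⟨A1, t, hA1ne, hA1, hA1c⟩ := dy_step hF hn hA (by positivity : (0 : ℝ) < 2 * u) hAu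
    have hA1pos : 0 < (A1.card : ℝ) := by exact_mod_cast hA1ne.card_pos
    set y : ℝ := u / ((n : ℝ) + 1) with hy
    have hy0 : 0 < y := by positivity
    have hy1 : y ≤ 1 := by
      rw [hy, div_le_one hn0]
      linarith [Nat.cast_nonneg (α := ℝ) n]
    by_cases hgrow : (A1.card : ℝ) ≤ Λ * (A.card : ℝ)
    · -- stop here
      have hyle : y ^ (4 ^ (j + 1 + 1)) ≤ y := by
        calc y ^ (4 ^ (j + 1 + 1)) ≤ y ^ 1 :=
              pow_le_pow_of_le_one hy0.le hy1 (Nat.one_le_pow _ _ (by norm_num))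
          _ = y := pow_one y
      have hyu : y ≤ u := by
        rw [hy]
        exact div_le_self hu.le (by linarith [Nat.cast_nonneg (α := ℝ) n])
      refine ⟨A, 2 * u, 1, hA, by linarith, hyle.trans hy1, hAu, ?_, ?_⟩
      · -- energy
        have h1 : (t : ℝ) ^ 2 * (A1.card : ℝ) ≤ (A.addEnergy A : ℝ) := by
          have h2 : t ^ 2 * A1.card ≤ A.addEnergy A := by
            rw [addEnergy_eq]
            have h3 : ∑ z ∈ A1, rep A z * rep A z ≤ ∑ p ∈ A ×ˢ A, rep A (p.1 - p.2) := by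
              have h4 : ∀ z ∈ A1, rep A z * rep A z
                  = ∑ p ∈ (A ×ˢ A).filter (fun p => p.1 - p.2 = z), rep A (p.1 - p.2) := by
                intro z _
                rw [Finset.sum_congr rfl (fun p hp => by rw [(Finset.mem_filter.1 hp).2]),
                  Finset.sum_const, smul_eq_mul]
                rfl
              rw [Finset.sum_congr rfl h4, ← Finset.sum_biUnion]
              · refine Finset.sum_le_sum_of_subset ?_
                intro p hp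
                obtain ⟨z, _, hpz⟩ := Finset.mem_biUnion.1 hp
                exact (Finset.mem_filter.1 hpz).1
              · intro a _ b _ hab
                simp only [Function.onFun]
                rw [Finset.disjoint_left]
                intro p hp hq
                exact hab ((Finset.mem_filter.1 hp).2.symm.trans (Finset.mem_filter.1 hq).2)
            refine le_trans ?_ h3
            rw [mul_comm, ← smul_eq_mul]
            refine Finset.card_nsmul_le_sum _ _ _ (fun z hz => ?_)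
            rw [sq]
            exact Nat.mul_le_mul (hA1 z hz).2 (hA1 z hz).2
          exact_mod_cast h2
        have h5 : ((2 * u) ^ 2 * (A.card : ℝ) ^ 2) ^ 2
            ≤ (4 * ((n : ℝ) + 1) * ((t : ℝ) * (A1.card : ℝ))) ^ 2 :=
          pow_le_pow_left₀ (by positivity) hA1c 2
        have h6 : (2 * u) ^ 4 * (A.card : ℝ) ^ 3 * (A.card : ℝ)
            ≤ (16 * ((n : ℝ) + 1) ^ 2 * Λ * (A.addEnergy A : ℝ)) * (A.card : ℝ) := by
          calc (2 * u) ^ 4 * (A.card : ℝ) ^ 3 * (A.card : ℝ)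
              = ((2 * u) ^ 2 * (A.card : ℝ) ^ 2) ^ 2 := by ring
            _ ≤ (4 * ((n : ℝ) + 1) * ((t : ℝ) * (A1.card : ℝ))) ^ 2 := h5
            _ = 16 * ((n : ℝ) + 1) ^ 2 * (((t : ℝ) ^ 2 * (A1.card : ℝ)) * (A1.card : ℝ)) := by ring
            _ ≤ 16 * ((n : ℝ) + 1) ^ 2 * ((A.addEnergy A : ℝ) * (Λ * (A.card : ℝ))) := by
                refine mul_le_mul_of_nonneg_left ?_ (by positivity)
                exact mul_le_mul h1 hgrow (by positivity) (by positivity)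
            _ = _ := by ring
        exact le_of_mul_le_mul_right h6 hApos
      · intro H _ η _ x hx
        exact ⟨x, by rw [one_mul]; exact hx⟩
    · -- continue
      rw [not_le] at hgrow
      have hbig' : (2 : ℝ) ^ n < (A1.card : ℝ) * Λ ^ j := by
        calc (2 : ℝ) ^ n < (A.card : ℝ) * Λ ^ (j + 1) := hbig
          _ = (Λ * (A.card : ℝ)) * Λ ^ j := by ring
          _ ≤ (A1.card : ℝ) * Λ ^ j := mul_le_mul_of_nonneg_right hgrow.le (by positivity)
      obtain ⟨B, ρ, κ, hBne, hρ, hκ, hBρ, hE, hdesc⟩ := ih A1 hA1ne (u ^ 2) (by positivity)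
        (pow_le_one₀ hu.le hu1) (fun x hx => by
          have h1 := (hA1 x hx).1
          calc 2 * u ^ 2 = (2 * u) ^ 2 / 2 := by ring
            _ ≤ F x := h1) hbig'
      have hw : y ^ (4 ^ (j + 1 + 1)) ≤ (u ^ 2 / ((n : ℝ) + 1)) ^ (4 ^ (j + 1))
          * (u ^ 2 / ((n : ℝ) + 1)) := by
        have h1 : y ^ 2 ≤ u ^ 2 / ((n : ℝ) + 1) := by
          rw [hy, div_pow]
          refine div_le_div_of_nonneg_left (by positivity) hn0 ?_
          nlinarith [Nat.cast_nonneg (α := ℝ) n]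
        calc y ^ (4 ^ (j + 1 + 1)) ≤ y ^ (2 * (4 ^ (j + 1) + 1)) := by
              refine pow_le_pow_of_le_one hy0.le hy1 ?_
              have h2 : 1 ≤ 4 ^ (j + 1) := Nat.one_le_pow _ _ (by norm_num)
              rw [pow_succ 4 (j + 1)]
              omega
          _ = (y ^ 2) ^ (4 ^ (j + 1) + 1) := by rw [pow_mul]
          _ ≤ (u ^ 2 / ((n : ℝ) + 1)) ^ (4 ^ (j + 1) + 1) :=
              pow_le_pow_left₀ (by positivity) h1 _
          _ = _ := by rw [pow_succ]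
      have hv1 : u ^ 2 / ((n : ℝ) + 1) ≤ 1 := by
        rw [div_le_one hn0]
        have : u ^ 2 ≤ 1 := pow_le_one₀ hu.le hu1
        linarith [Nat.cast_nonneg (α := ℝ) n]
      have hv0 : 0 < u ^ 2 / ((n : ℝ) + 1) := by positivity
      have hwn : (0 : ℝ) < (u ^ 2 / ((n : ℝ) + 1)) ^ (4 ^ (j + 1)) := by positivity
      refine ⟨B, ρ, (2 * u) ^ 2 / (4 * ((n : ℝ) + 1)) * κ, hBne, ?_, ?_, hBρ, hE, ?_⟩
      · refine hw.trans ?_
        calc (u ^ 2 / ((n : ℝ) + 1)) ^ (4 ^ (j + 1)) * (u ^ 2 / ((n : ℝ) + 1))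
            ≤ (u ^ 2 / ((n : ℝ) + 1)) ^ (4 ^ (j + 1)) * 1 :=
              mul_le_mul_of_nonneg_left hv1 hwn.le
          _ ≤ ρ := by rw [mul_one]; exact hρ
      · refine hw.trans ?_
        have h1 : (2 * u) ^ 2 / (4 * ((n : ℝ) + 1)) = u ^ 2 / ((n : ℝ) + 1) := by
          field_simp
          ring
        rw [h1, mul_comm]
        exact mul_le_mul_of_nonneg_left hκ hv0.le
      · intro H _ η hη x hx
        obtain ⟨x', hx'⟩ := hdesc H η hη x hx
        have hκ0 : 0 ≤ κ := hwn.le.trans hκ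
        obtain ⟨x'', hx''⟩ := descend hA (fun z hz => (hA1 z hz).2) hA1c H (κ * η)
          (mul_nonneg hκ0 hη) x' hx'
        refine ⟨x'', le_trans (le_of_eq ?_) hx''⟩
        ring

end chain

section level

variable {G : Type} [Fintype G]

/-- a dyadic level set of the weight on which the function is large -/
theorem level {μ : G → ℝ} (hμ : Pr μ) {F : G → ℝ} (hF0 : ∀ x, 0 ≤ F x) (hF1 : ∀ x, F x ≤ 1)
    {n q : ℕ} (hn : Fintype.card G ≤ 2 ^ n) {ρ : ℝ} (hρ : 0 < ρ) (hq : 1 ≤ ρ * 2 ^ q)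
    (h : ρ ≤ ∑ x, μ x * F x) :
    ∃ (A : Finset G) (s : ℝ), 0 < s ∧ (∀ x ∈ A, ρ / 2 ≤ F x) ∧
      (∀ x ∈ A, s ≤ μ x ∧ μ x ≤ 2 * s) ∧
      ρ / (4 * ((n : ℝ) + q + 3)) ≤ ∑ x ∈ A, μ x := by
  classical
  set r0 : ℝ := ρ / (4 * 2 ^ n) with hr0
  have hr0pos : 0 < r0 := by positivity
  set T : Finset G := Finset.univ.filter (fun x => ρ / 2 ≤ F x ∧ r0 ≤ μ x) with hT
  have hTm : ρ / 4 ≤ ∑ x ∈ T, μ x := by
    have h1 : ∑ x, μ x * F x ≤ ∑ x, (ρ / 2 * μ x + r0 + if x ∈ T then μ x else 0) := by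
      refine Finset.sum_le_sum (fun x _ => ?_)
      have hm := hμ.nonneg x
      have hf0 := hF0 x
      have hf1 := hF1 x
      have h2 : μ x * F x ≤ μ x := mul_le_of_le_one_right hm hf1
      have h3 : 0 ≤ ρ / 2 * μ x := by positivity
      split_ifs with hx
      · linarith
      · rw [hT, Finset.mem_filter] at hx
        simp only [Finset.mem_univ, true_and, not_and_or, not_le] at hx
        rcases hx with hx | hx
        · have h4 : μ x * F x ≤ μ x * (ρ / 2) := mul_le_mul_of_nonneg_left hx.le hm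
          linarith
        · linarith
    rw [Finset.sum_add_distrib, Finset.sum_add_distrib, ← Finset.mul_sum, hμ.sum, mul_one,
      Finset.sum_const, nsmul_eq_mul, Finset.card_univ, ← Finset.sum_filter] at h1
    have h2 : (Finset.univ.filter (fun x => x ∈ T)) = T := by
      ext x; simp
    rw [h2] at h1
    have h3 : (Fintype.card G : ℝ) * r0 ≤ ρ / 4 := by
      have h4 : (Fintype.card G : ℝ) ≤ 2 ^ n := by exact_mod_cast hn
      calc (Fintype.card G : ℝ) * r0 ≤ 2 ^ n * r0 := mul_le_mul_of_nonneg_right h4 hr0pos.le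
        _ = ρ / 4 := by rw [hr0]; field_simp
    linarith
  set L : ℕ := n + q + 3 with hL
  set cl : G → ℕ := fun x => Nat.log 2 ⌊μ x / r0⌋₊ with hcl
  have hfl : ∀ x ∈ T, ⌊μ x / r0⌋₊ ≠ 0 := by
    intro x hx
    have h1 := (Finset.mem_filter.1 hx).2.2
    have h2 : 1 ≤ μ x / r0 := by rw [le_div_iff₀ hr0pos, one_mul]; exact h1
    have h3 : 1 ≤ ⌊μ x / r0⌋₊ := Nat.le_floor (by exact_mod_cast h2)
    omega
  have hmap : ∀ x ∈ T, cl x ∈ Finset.range L := by
    intro x hx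
    rw [Finset.mem_range, hcl]
    refine Nat.log_lt_of_lt_pow (hfl x hx) ?_
    have h1 : μ x ≤ 1 := by
      rw [← hμ.sum]
      exact Finset.single_le_sum (fun y _ => hμ.nonneg y) (Finset.mem_univ x)
    have h2 : μ x / r0 < ((2 ^ L : ℕ) : ℝ) := by
      push_cast
      rw [div_lt_iff₀ hr0pos, hr0, hL]
      calc μ x ≤ 1 := h1
        _ ≤ ρ * 2 ^ q := hq
        _ < 2 * (ρ * 2 ^ q) := by
            have : 0 < ρ * 2 ^ q := by positivity
            linarith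
        _ = 2 ^ (n + q + 3) * (ρ / (4 * 2 ^ n)) := by
            rw [pow_add, pow_add]
            field_simp
            ring
    exact (Nat.floor_lt' (by positivity)).2 h2
  have hsum := Finset.sum_fiberwise_of_maps_to hmap μ
  obtain ⟨i, -, hi⟩ := Finset.exists_le_of_sum_le (s := Finset.range L)
    (f := fun _ => ρ / (4 * ((n : ℝ) + q + 3))) (g := fun i => ∑ x ∈ T.filter (fun x => cl x = i), μ x)
    ⟨0, Finset.mem_range.2 (by omega)⟩ (by
      rw [hsum, Finset.sum_const, nsmul_eq_mul, Finset.card_range]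
      refine le_trans (le_of_eq ?_) hTm
      rw [hL]
      push_cast
      have h1 : (0 : ℝ) < (n : ℝ) + q + 3 := by positivity
      field_simp)
  refine ⟨T.filter (fun x => cl x = i), r0 * 2 ^ i, by positivity, ?_, ?_, hi⟩
  · intro x hx
    exact (Finset.mem_filter.1 (Finset.mem_filter.1 hx).1).2.1
  · intro x hx
    rw [Finset.mem_filter] at hx
    have h1 := hfl x hx.1
    have h2 : 2 ^ i ≤ ⌊μ x / r0⌋₊ := by
      rw [← hx.2]
      exact Nat.pow_log_le_self 2 h1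
    have h3 : ⌊μ x / r0⌋₊ < 2 ^ (i + 1) := by
      rw [← hx.2]
      exact Nat.lt_pow_succ_log_self (by norm_num) _
    constructor
    · have h4 : ((2 ^ i : ℕ) : ℝ) ≤ μ x / r0 :=
        (Nat.le_floor_iff (div_nonneg (hμ.nonneg x) hr0pos.le)).1 h2
      push_cast at h4
      rw [le_div_iff₀ hr0pos] at h4
      linarith
    · have h4 : μ x / r0 < ((2 ^ (i + 1) : ℕ) : ℝ) := Nat.lt_of_floor_lt h3
      push_cast at h4
      rw [div_lt_iff₀ hr0pos, pow_succ] at h4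
      linarith

end level

section assembly

/-- The core of approximate duality, all constants explicit. -/
theorem ad_core {K C : ℕ}
    (hPFR : ∀ (G : Type) [AddCommGroup G] [Finite G] [DecidableEq G], (∀ g : G, (2 ^ K) • g = 0) →
      ∀ A : Finset G, A.Nonempty → ∀ M : ℝ, ((A + A).card : ℝ) ≤ M * A.card → Pop C A M)
    {G G' : Type} [AddCommGroup G] [Fintype G] [AddCommGroup G'] [Fintype G']
    (h2K : ∀ g : G, (2 ^ K) • g = 0) {n q J : ℕ} (hn : Fintype.card G ≤ 2 ^ n)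
    {χ : G → G' → ℂ} (hχ : Bich χ) {μ : G → ℝ} {μ' : G' → ℝ} (hμ : Pr μ) (hμ' : Pr μ')
    {ρ Λ : ℝ} (hρ : 0 < ρ) (hρ1 : ρ ≤ 1) (hq : 1 ≤ ρ * 2 ^ q)
    (hΛ1 : (2 : ℝ) ^ n < Λ ^ J) (hΛ2 : (4 * ((n : ℝ) + 1) / ρ) ^ (4 ^ (J + 1)) ≤ Λ)
    (hΛ3 : 16 * ((n : ℝ) + 1) ^ 2 ≤ Λ) (hΛ4 : (2 : ℝ) ^ 21 ≤ Λ)
    (hΛ5 : 8 * ((n : ℝ) + q + 3) ≤ Λ)
    (h : ρ ≤ ‖∑ x, ∑ y, (μ x : ℂ) * (μ' y : ℂ) * χ x y‖) :
    ∃ (H : AddSubgroup G) (x0 : G) (y0 : G'),
      1 ≤ Λ ^ (10 + 122 * C) * ∑ x ∈ (Set.toFinite {x : G | x - x0 ∈ H}).toFinset, μ x ∧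
      1 ≤ Λ ^ (2 + 244 * C) *
        ∑ y ∈ (Set.toFinite {y : G' | ∀ h ∈ H, χ h y = χ h y0}).toFinset, μ' y := by
  classical
  have hn0 : (0 : ℝ) < (n : ℝ) + 1 := by positivity
  have hΛ0 : (1 : ℝ) ≤ Λ := le_trans (by norm_num) hΛ4
  have hΛp : (0 : ℝ) < Λ := by linarith
  set F : G → ℝ := fun x => ‖tf χ μ' x‖ with hF
  have hLg : Lg F := ⟨fun x => tf_norm_le hχ hμ' x, fun A ρ hρ hA => tf_cs hχ hμ' A ρ hρ hA⟩
  have hsum : ρ ≤ ∑ x, μ x * F x := by
    refine h.trans ((norm_sum_le _ _).trans (le_of_eq ?_))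
    refine Finset.sum_congr rfl (fun x _ => ?_)
    have h1 : ∑ y, (μ x : ℂ) * (μ' y : ℂ) * χ x y = (μ x : ℂ) * tf χ μ' x := by
      rw [tf, Finset.mul_sum]
      exact Finset.sum_congr rfl (fun y _ => mul_assoc _ _ _)
    rw [h1, norm_mul, Complex.norm_real, Real.norm_eq_abs, abs_of_nonneg (hμ.nonneg x)]
  obtain ⟨A, s, hs, hAF, hAμ, hAm⟩ := level hμ (fun x => norm_nonneg _)
    (fun x => tf_norm_le hχ hμ' x) hn hρ hq hsum
  have hApos : 0 < ∑ x ∈ A, μ x := lt_of_lt_of_le (by positivity) hAm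
  have hAne : A.Nonempty := by
    by_contra hcon
    rw [Finset.not_nonempty_iff_eq_empty] at hcon
    rw [hcon, Finset.sum_empty] at hApos
    exact lt_irrefl _ hApos
  have hAc : (1 : ℝ) ≤ (A.card : ℝ) := by exact_mod_cast hAne.card_pos
  set u : ℝ := ρ / 4 with hu
  have hu0 : 0 < u := by positivity
  have hu1 : u ≤ 1 := by rw [hu]; linarith
  obtain ⟨B, ρB, κ, hBne, hρB, hκ, hBF, hBE, hdesc⟩ := chain hLg hn hΛ0 J A hAne u hu0 hu1
    (fun x hx => by
      have := hAF x hx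
      calc 2 * u = ρ / 2 := by rw [hu]; ring
        _ ≤ F x := this)
    (by
      calc (2 : ℝ) ^ n < Λ ^ J := hΛ1
        _ = 1 * Λ ^ J := (one_mul _).symm
        _ ≤ (A.card : ℝ) * Λ ^ J := mul_le_mul_of_nonneg_right hAc (by positivity))
  -- the lower bound `Λ⁻¹` for `ρB` and `κ`
  have hw : Λ⁻¹ ≤ (u / ((n : ℝ) + 1)) ^ (4 ^ (J + 1)) := by
    have h1 : (u / ((n : ℝ) + 1)) ^ (4 ^ (J + 1))
        = ((4 * ((n : ℝ) + 1) / ρ) ^ (4 ^ (J + 1)))⁻¹ := by
      rw [← inv_pow]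
      congr 1
      rw [hu]
      field_simp
    rw [h1]
    exact inv_anti₀ (by positivity) hΛ2
  have hρB' : Λ⁻¹ ≤ ρB := hw.trans hρB
  have hκ' : Λ⁻¹ ≤ κ := hw.trans hκ
  have hρBpos : 0 < ρB := lt_of_lt_of_le (by positivity) hρB'
  have hκpos : 0 < κ := lt_of_lt_of_le (by positivity) hκ'
  -- the energy of B
  have hE : (B.card : ℝ) ^ 3 ≤ Λ ^ 6 * (B.addEnergy B : ℝ) := by
    have h1 : (1 : ℝ) ≤ Λ ^ 4 * ρB ^ 4 := by
      rw [← mul_pow]
      refine one_le_pow₀ ?_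
      calc (1 : ℝ) = Λ * Λ⁻¹ := (mul_inv_cancel₀ hΛp.ne').symm
        _ ≤ Λ * ρB := mul_le_mul_of_nonneg_left hρB' hΛp.le
    calc (B.card : ℝ) ^ 3 = 1 * (B.card : ℝ) ^ 3 := (one_mul _).symm
      _ ≤ (Λ ^ 4 * ρB ^ 4) * (B.card : ℝ) ^ 3 := mul_le_mul_of_nonneg_right h1 (by positivity)
      _ = Λ ^ 4 * (ρB ^ 4 * (B.card : ℝ) ^ 3) := by ring
      _ ≤ Λ ^ 4 * (16 * ((n : ℝ) + 1) ^ 2 * Λ * (B.addEnergy B : ℝ)) :=
          mul_le_mul_of_nonneg_left hBE (by positivity)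
      _ ≤ Λ ^ 4 * (Λ * Λ * (B.addEnergy B : ℝ)) := by
          refine mul_le_mul_of_nonneg_left ?_ (by positivity)
          refine mul_le_mul_of_nonneg_right ?_ (by positivity)
          exact mul_le_mul_of_nonneg_right hΛ3 hΛp.le
      _ = Λ ^ 6 * (B.addEnergy B : ℝ) := by ring
  obtain ⟨A', hA'B, hA'ne, hBA', hdiff⟩ := bsg B hBne (Λ ^ 6) (by positivity) hE
  have hA'pos : 0 < (A'.card : ℝ) := by exact_mod_cast hA'ne.card_pos
  -- Plünnecke
  have hdiff' : ((A' - A').card : ℝ) ≤ Λ ^ 61 * A'.card := by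
    refine hdiff.trans (mul_le_mul_of_nonneg_right ?_ hA'pos.le)
    calc (2 : ℝ) ^ 21 * (Λ ^ 6) ^ 10 ≤ Λ * (Λ ^ 6) ^ 10 :=
          mul_le_mul_of_nonneg_right hΛ4 (by positivity)
      _ = Λ ^ 61 := by ring
  have hplus : ((A' + A').card : ℝ) ≤ Λ ^ 122 * A'.card := by
    have h1 := Finset.pluennecke_ruzsa_inequality_nsmul_sub_nsmul_sub hA'ne A' 2 0
    have h3 : (((2 • A' - 0 • A').card : ℚ≥0) : ℝ)
        ≤ ((((A' - A').card / A'.card : ℚ≥0) ^ (2 + 0) * A'.card : ℚ≥0) : ℝ) := by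
      exact_mod_cast h1
    have h4 : 2 • A' - 0 • A' = A' + A' := by
      rw [zero_nsmul, sub_zero, two_nsmul]
    rw [h4] at h3
    push_cast at h3
    refine h3.trans (mul_le_mul_of_nonneg_right ?_ hA'pos.le)
    calc (((A' - A').card : ℝ) / (A'.card : ℝ)) ^ (2 + 0) ≤ (Λ ^ 61) ^ (2 + 0) := by
          refine pow_le_pow_left₀ (by positivity) ?_ _
          rw [div_le_iff₀ hA'pos]
          exact hdiff'
      _ = Λ ^ 122 := by ring
  obtain ⟨H, A'', hA''A', hA''ne, hA''H, hA'A'', hHA'⟩ :=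
    hPFR G h2K A' hA'ne (Λ ^ 122) hplus
  rw [← pow_mul] at hA'A'' hHA'
  have hA''pos : 0 < (A''.card : ℝ) := by exact_mod_cast hA''ne.card_pos
  obtain ⟨x1, hx1⟩ := hA''ne
  -- the popular coset in B
  have hpop : (6 * Λ ^ 6 * Λ ^ (122 * C))⁻¹ * (B.card : ℝ)
      ≤ ((B.filter (fun a => a - x1 ∈ H)).card : ℝ) := by
    have h1 : (A''.card : ℝ) ≤ ((B.filter (fun a => a - x1 ∈ H)).card : ℝ) := by
      have h2 : A'' ⊆ B.filter (fun a => a - x1 ∈ H) := by
        intro a ha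
        exact Finset.mem_filter.2 ⟨hA'B (hA''A' ha), hA''H a ha x1 hx1⟩
      exact_mod_cast Finset.card_le_card h2
    refine le_trans ?_ h1
    rw [inv_mul_le_iff₀ (by positivity)]
    calc (B.card : ℝ) ≤ 6 * Λ ^ 6 * (A'.card : ℝ) := hBA'
      _ ≤ 6 * Λ ^ 6 * (Λ ^ (122 * C) * (A''.card : ℝ)) :=
          mul_le_mul_of_nonneg_left hA'A'' (by positivity)
      _ = 6 * Λ ^ 6 * Λ ^ (122 * C) * (A''.card : ℝ) := by ring
  obtain ⟨x', hx'⟩ := hdesc H _ (by positivity) x1 hpop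
  obtain ⟨y0, hy0⟩ := clump_dual hχ hμ' H A'' ⟨x1, hx1⟩ hA''H ρB hρBpos.le
    (fun x hx => hBF x (hA'B (hA''A' hx)))
  refine ⟨H, x', y0, ?_, ?_⟩
  · set c : ℝ := (6 * Λ ^ 6 * Λ ^ (122 * C))⁻¹ with hc
    have hc0 : 0 < c := by positivity
    have h1 : s * ((A.filter (fun a => a - x' ∈ H)).card : ℝ)
        ≤ ∑ x ∈ (Set.toFinite {x : G | x - x' ∈ H}).toFinset, μ x := by
      calc s * ((A.filter (fun a => a - x' ∈ H)).card : ℝ)
          = ∑ x ∈ A.filter (fun a => a - x' ∈ H), s := by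
            rw [Finset.sum_const, nsmul_eq_mul, mul_comm]
        _ ≤ ∑ x ∈ A.filter (fun a => a - x' ∈ H), μ x :=
            Finset.sum_le_sum (fun x hx => (hAμ x (Finset.mem_filter.1 hx).1).1)
        _ ≤ _ := by
            refine Finset.sum_le_sum_of_subset_of_nonneg ?_ (fun x _ _ => hμ.nonneg x)
            intro x hx
            rw [Set.Finite.mem_toFinset]
            exact (Finset.mem_filter.1 hx).2
    have h2 : ∑ x ∈ A, μ x ≤ 2 * s * (A.card : ℝ) := by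
      calc ∑ x ∈ A, μ x ≤ ∑ x ∈ A, 2 * s := Finset.sum_le_sum (fun x hx => (hAμ x hx).2)
        _ = 2 * s * (A.card : ℝ) := by rw [Finset.sum_const, nsmul_eq_mul, mul_comm]
    have h3 : Λ⁻¹ * c * (ρ / (8 * ((n : ℝ) + q + 3)))
        ≤ ∑ x ∈ (Set.toFinite {x : G | x - x' ∈ H}).toFinset, μ x := by
      refine le_trans ?_ h1
      calc Λ⁻¹ * c * (ρ / (8 * ((n : ℝ) + q + 3)))
          = Λ⁻¹ * c * (ρ / (4 * ((n : ℝ) + q + 3)) / 2) := by
            congr 1
            have : (0 : ℝ) < (n : ℝ) + q + 3 := by positivity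
            field_simp
            norm_num
        _ ≤ κ * c * (2 * s * (A.card : ℝ) / 2) := by
            refine mul_le_mul (mul_le_mul_of_nonneg_right hκ' hc0.le) ?_ (by positivity)
              (by positivity)
            exact div_le_div_of_nonneg_right (hAm.trans h2) (by norm_num)
        _ = s * (κ * c * (A.card : ℝ)) := by ring
        _ ≤ s * ((A.filter (fun a => a - x' ∈ H)).card : ℝ) :=
            mul_le_mul_of_nonneg_left hx' hs.le
    have h4 : ρ⁻¹ ≤ Λ := by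
      have h5 : ρ⁻¹ ≤ (4 * ((n : ℝ) + 1) / ρ) := by
        rw [inv_eq_one_div]
        refine div_le_div_of_nonneg_right ?_ hρ.le
        linarith [Nat.cast_nonneg (α := ℝ) n]
      have h6 : 1 ≤ 4 * ((n : ℝ) + 1) / ρ := by
        rw [le_div_iff₀ hρ]
        linarith [Nat.cast_nonneg (α := ℝ) n]
      calc ρ⁻¹ ≤ (4 * ((n : ℝ) + 1) / ρ) := h5
        _ = (4 * ((n : ℝ) + 1) / ρ) ^ 1 := (pow_one _).symm
        _ ≤ (4 * ((n : ℝ) + 1) / ρ) ^ (4 ^ (J + 1)) :=
            pow_le_pow_right₀ h6 (Nat.one_le_pow _ _ (by norm_num))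
        _ ≤ Λ := hΛ2
    have h7 : 1 ≤ Λ ^ (10 + 122 * C) * (Λ⁻¹ * c * (ρ / (8 * ((n : ℝ) + q + 3)))) := by
      have h8 : Λ⁻¹ * c * (ρ / (8 * ((n : ℝ) + q + 3)))
          = (Λ * (6 * Λ ^ 6 * Λ ^ (122 * C)) * (ρ⁻¹ * (8 * ((n : ℝ) + q + 3))))⁻¹ := by
        have h10 : (0 : ℝ) < (n : ℝ) + q + 3 := by positivity
        rw [hc]
        field_simp
      rw [h8, ← div_eq_mul_inv, le_div_iff₀ (by positivity), one_mul]
      calc Λ * (6 * Λ ^ 6 * Λ ^ (122 * C)) * (ρ⁻¹ * (8 * ((n : ℝ) + q + 3)))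
          ≤ Λ * (Λ * Λ ^ 6 * Λ ^ (122 * C)) * (Λ * Λ) := by
            have h9 : (6 : ℝ) ≤ Λ := le_trans (by norm_num) hΛ4
            gcongr
        _ = Λ ^ (10 + 122 * C) := by
            rw [pow_add]
            ring
    exact h7.trans (mul_le_mul_of_nonneg_left h3 (by positivity))
  · set S : ℝ := ∑ y ∈ (Set.toFinite {y : G' | ∀ h ∈ H, χ h y = χ h y0}).toFinset, μ' y with hS
    have hS0 : 0 ≤ S := Finset.sum_nonneg (fun y _ => hμ'.nonneg y)
    have h1 : ρB ^ 2 * (A''.card : ℝ) ≤ (Λ ^ (122 * C) * Λ ^ (122 * C) * S) * (A''.card : ℝ) := by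
      calc ρB ^ 2 * (A''.card : ℝ) ≤ (Nat.card H : ℝ) * S := hy0
        _ ≤ (Λ ^ (122 * C) * (A'.card : ℝ)) * S := mul_le_mul_of_nonneg_right hHA' hS0
        _ ≤ (Λ ^ (122 * C) * (Λ ^ (122 * C) * (A''.card : ℝ))) * S := by
            refine mul_le_mul_of_nonneg_right ?_ hS0
            exact mul_le_mul_of_nonneg_left hA'A'' (by positivity)
        _ = _ := by ring
    have h2 : ρB ^ 2 ≤ Λ ^ (122 * C) * Λ ^ (122 * C) * S := le_of_mul_le_mul_right h1 hA''pos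
    have h3 : (Λ⁻¹) ^ 2 ≤ ρB ^ 2 := pow_le_pow_left₀ (by positivity) hρB' 2
    calc (1 : ℝ) = Λ ^ 2 * (Λ⁻¹) ^ 2 := by
          rw [← mul_pow, mul_inv_cancel₀ hΛp.ne', one_pow]
      _ ≤ Λ ^ 2 * (Λ ^ (122 * C) * Λ ^ (122 * C) * S) :=
          mul_le_mul_of_nonneg_left (h3.trans h2) (by positivity)
      _ = Λ ^ (2 + 244 * C) * S := by
          rw [show 2 + 244 * C = 2 + 122 * C + 122 * C by ring, pow_add, pow_add]
          ring

/-- a linear function is eventually below an exponential -/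
theorem lin_le_pow {r : ℝ} (hr : 1 < r) (a b : ℝ) : ∃ m0 : ℕ, ∀ m : ℕ, m0 ≤ m →
    a * (m : ℝ) + b ≤ r ^ m := by
  have h1 := tendsto_pow_const_div_const_pow_of_one_lt 1 hr
  have h2 := tendsto_pow_const_div_const_pow_of_one_lt 0 hr
  have h3 := (h1.const_mul a).add (h2.const_mul b)
  simp only [pow_one, pow_zero, mul_zero, add_zero] at h3
  have h4 := (h3.eventually_lt_const (zero_lt_one : (0 : ℝ) < 1)).exists_forall_of_atTop
  obtain ⟨m0, hm0⟩ := h4
  refine ⟨m0, fun m hm => ?_⟩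
  have h5 := hm0 m hm
  have h6 : 0 < r ^ m := by positivity
  have h7 : a * ((m : ℝ) / r ^ m) + b * (1 / r ^ m) = (a * m + b) / r ^ m := by ring
  rw [h7, div_lt_one h6] at h5
  exact h5.le

/-- **Approximate duality** for a bicharacter on a group of exponent `2^K` and size `2^(K m)`:
a bias of at least `2^(-τ m)` produces a pair (coset of a subgroup, coset of its annihilator), both
of measure at least `2^(-δ m)`. -/
theorem adk {C1 : ℕ} (hP : PFR1 C1) (K : ℕ) (δ : ℝ) (hδ : 0 < δ) :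
    ∃ τ : ℝ, 0 < τ ∧ ∃ m0 : ℕ, ∀ m : ℕ, m0 ≤ m →
      ∀ (G G' : Type) [AddCommGroup G] [Fintype G] [AddCommGroup G'] [Fintype G'],
        (∀ g : G, (2 ^ K) • g = 0) → Fintype.card G ≤ 2 ^ (K * m) →
        ∀ χ : G → G' → ℂ, Bich χ → ∀ (μ : G → ℝ) (μ' : G' → ℝ), Pr μ → Pr μ' →
          (2 : ℝ) ^ (-(τ * m)) ≤ ‖∑ x, ∑ y, (μ x : ℂ) * (μ' y : ℂ) * χ x y‖ →
          ∃ (H : AddSubgroup G) (x0 : G) (y0 : G'),
            (2 : ℝ) ^ (-(δ * m)) ≤ ∑ x ∈ (Set.toFinite {x : G | x - x0 ∈ H}).toFinset, μ x ∧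
            (2 : ℝ) ^ (-(δ * m)) ≤
              ∑ y ∈ (Set.toFinite {y : G' | ∀ h ∈ H, χ h y = χ h y0}).toFinset, μ' y := by
  obtain ⟨C, hC⟩ := pfrk hP K
  set D : ℝ := 10 + 244 * (C : ℝ) with hD
  have hD0 : 0 < D := by positivity
  set e : ℝ := δ / D with he
  have he0 : 0 < e := by positivity
  obtain ⟨J, hJ⟩ := exists_nat_gt ((K : ℝ) / e)
  have hJ' : (K : ℝ) < e * J := by
    rw [div_lt_iff₀ he0] at hJ
    linarith
  set N : ℕ := 4 ^ (J + 1) with hN
  have hN0 : 0 < N := by positivity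
  have hN1 : (0 : ℝ) < (N : ℝ) := by exact_mod_cast hN0
  set τ : ℝ := min (e / (2 * N)) 1 with hτ
  have hτ0 : 0 < τ := lt_min (by positivity) one_pos
  have hτe : 2 * N * τ ≤ e := by
    have h1 : τ ≤ e / (2 * N) := min_le_left _ _
    rw [le_div_iff₀ (by positivity)] at h1
    linarith
  have hτ1 : τ ≤ 1 := min_le_right _ _
  have hr1 : (1 : ℝ) < 2 ^ τ := Real.one_lt_rpow (by norm_num) hτ0
  have hr2 : (1 : ℝ) < 2 ^ (e / 2) := Real.one_lt_rpow (by norm_num) (by positivity)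
  have hr3 : (1 : ℝ) < 2 ^ e := Real.one_lt_rpow (by norm_num) he0
  obtain ⟨m1, hm1⟩ := lin_le_pow hr1 (4 * K) 4
  obtain ⟨m2, hm2⟩ := lin_le_pow hr2 (4 * K) 4
  obtain ⟨m3, hm3⟩ := lin_le_pow hr3 0 (2 ^ 21)
  obtain ⟨m4, hm4⟩ := lin_le_pow hr3 (8 * (K + 1)) 24
  refine ⟨τ, hτ0, max (max m1 m2) (max m3 (max m4 1)), ?_⟩
  intro m hm G G' _ _ _ _ h2K hcard χ hχ μ μ' hμ hμ' h
  have hm1' := hm1 m (le_trans (le_trans (le_max_left _ _) (le_max_left _ _)) hm)
  have hm2' := hm2 m (le_trans (le_trans (le_max_right _ _) (le_max_left _ _)) hm)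
  have hm3' := hm3 m (le_trans (le_trans (le_max_left _ _) (le_max_right _ _)) hm)
  have hm4' := hm4 m (le_trans (le_trans (le_trans (le_max_left _ _) (le_max_right _ _))
    (le_max_right _ _)) hm)
  have hmpos : 1 ≤ m := le_trans (le_trans (le_trans (le_max_right _ _) (le_max_right _ _))
    (le_max_right _ _)) hm
  have hmR : (1 : ℝ) ≤ (m : ℝ) := by exact_mod_cast hmpos
  set Λ : ℝ := (2 : ℝ) ^ (e * m) with hΛ
  have hΛ0 : 0 < Λ := by positivity
  have hpe : ((2 : ℝ) ^ e) ^ m = Λ := by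
    rw [hΛ, Real.rpow_mul (by norm_num), Real.rpow_natCast]
  have hpτ : ((2 : ℝ) ^ τ) ^ m = (2 : ℝ) ^ (τ * m) := by
    rw [Real.rpow_mul (by norm_num), Real.rpow_natCast]
  have hpe2 : (((2 : ℝ) ^ (e / 2)) ^ m) ^ 2 = Λ := by
    rw [← hpe, ← pow_mul, mul_comm m 2, pow_mul, ← Real.rpow_natCast ((2 : ℝ) ^ (e / 2)) 2,
      ← Real.rpow_mul (by norm_num)]
    norm_num
  rw [hpτ] at hm1'
  rw [hpe] at hm3' hm4'
  have hKm : ((K * m : ℕ) : ℝ) = (K : ℝ) * m := by push_cast; ring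
  set ρ : ℝ := (2 : ℝ) ^ (-(τ * m)) with hρ
  have hρ0 : 0 < ρ := by positivity
  have hρinv : ρ⁻¹ = (2 : ℝ) ^ (τ * m) := by
    rw [hρ, Real.rpow_neg (by norm_num), inv_inv]
  have hρ1 : ρ ≤ 1 := by
    rw [hρ]
    exact Real.rpow_le_one_of_one_le_of_nonpos (by norm_num) (by
      have : 0 < τ * m := by positivity
      linarith)
  have hq : 1 ≤ ρ * 2 ^ m := by
    rw [hρ, ← Real.rpow_natCast 2 m, ← Real.rpow_add (by norm_num)]
    refine Real.one_le_rpow (by norm_num) ?_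
    nlinarith
  have hΛ1 : (2 : ℝ) ^ (K * m) < Λ ^ J := by
    rw [hΛ, ← Real.rpow_natCast 2 (K * m), ← Real.rpow_natCast _ J, ← Real.rpow_mul (by norm_num)]
    refine Real.rpow_lt_rpow_of_exponent_lt (by norm_num) ?_
    rw [hKm]
    nlinarith
  have hΛ2 : (4 * (((K * m : ℕ) : ℝ) + 1) / ρ) ^ (4 ^ (J + 1)) ≤ Λ := by
    rw [hKm, div_eq_mul_inv, hρinv, ← hN]
    have h1 : 4 * ((K : ℝ) * m + 1) * (2 : ℝ) ^ (τ * m) ≤ (2 : ℝ) ^ (2 * (τ * m)) := by
      rw [two_mul (τ * (m : ℝ)), Real.rpow_add (by norm_num)]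
      refine mul_le_mul_of_nonneg_right ?_ (by positivity)
      linarith
    calc (4 * ((K : ℝ) * m + 1) * (2 : ℝ) ^ (τ * m)) ^ N ≤ ((2 : ℝ) ^ (2 * (τ * m))) ^ N :=
          pow_le_pow_left₀ (by positivity) h1 _
      _ = (2 : ℝ) ^ (2 * (τ * m) * N) := by
          rw [← Real.rpow_natCast _ N, ← Real.rpow_mul (by norm_num)]
      _ ≤ Λ := by
          rw [hΛ]
          refine Real.rpow_le_rpow_of_exponent_le (by norm_num) ?_
          nlinarith
  have hΛ3 : 16 * (((K * m : ℕ) : ℝ) + 1) ^ 2 ≤ Λ := by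
    rw [hKm, ← hpe2]
    have h1 : 16 * ((K : ℝ) * m + 1) ^ 2 = (4 * K * m + 4) ^ 2 := by ring
    rw [h1]
    exact pow_le_pow_left₀ (by positivity) hm2' 2
  have hΛ4 : (2 : ℝ) ^ 21 ≤ Λ := by linarith
  have hΛ5 : 8 * (((K * m : ℕ) : ℝ) + m + 3) ≤ Λ := by
    rw [hKm]
    linarith
  obtain ⟨H, x0, y0, hx, hy⟩ := ad_core hC h2K hcard hχ hμ hμ' hρ0 hρ1 hq hΛ1 hΛ2 hΛ3 hΛ4 hΛ5 h
  have hΛone : 1 ≤ Λ := le_trans (by norm_num) hΛ4
  have hkey : ∀ (E : ℕ) (S : ℝ), (E : ℝ) ≤ D → 1 ≤ Λ ^ E * S → (2 : ℝ) ^ (-(δ * m)) ≤ S := by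
    intro E S hE hS
    have h1 : (Λ ^ E)⁻¹ ≤ S := by
      rw [inv_le_iff_one_le_mul₀ (by positivity)]
      linarith [mul_comm (Λ ^ E) S]
    refine le_trans ?_ h1
    rw [hΛ, ← Real.rpow_natCast _ E, ← Real.rpow_mul (by norm_num), ← Real.rpow_neg (by norm_num)]
    refine Real.rpow_le_rpow_of_exponent_le (by norm_num) ?_
    have h2 : e * D = δ := by rw [he]; field_simp
    have h3 : e * m * E ≤ δ * m := by
      calc e * m * E ≤ e * m * D := mul_le_mul_of_nonneg_left hE (by positivity)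
        _ = (e * D) * m := by ring
        _ = δ * m := by rw [h2]
    linarith
  refine ⟨H, x0, y0, hkey _ _ ?_ hx, hkey _ _ ?_ hy⟩
  · push_cast
    rw [hD]
    linarith [Nat.cast_nonneg (α := ℝ) C]
  · push_cast
    rw [hD]
    linarith [Nat.cast_nonneg (α := ℝ) C]

end assembly

end BSG
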