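import Pool.Agent.Lib.BSG.ADK
import Pool.Agent.Lib.PFR.Comb

/-!
# Approximate duality, unconditional form
-/

set_option autoImplicit false

open Finset

namespace BSG

/-- **Approximate duality** for a bicharacter on a group of exponent `2^K` and size `2^(K m)`:
a bias of at least `2^(-τ m)` produces a pair (coset of a subgroup, coset of its annihilator), both
of measure at least `2^(-δ m)`. -/
theorem ad_K (K : ℕ) (δ : ℝ) (hδ : 0 < δ) :
    ∃ τ : ℝ, 0 < τ ∧ ∃ m0 : ℕ, ∀ m : ℕ, m0 ≤ m →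
      ∀ (G G' : Type) [AddCommGroup G] [Fintype G] [AddCommGroup G'] [Fintype G'],
        (∀ g : G, (2 ^ K) • g = 0) → Fintype.card G ≤ 2 ^ (K * m) →
        ∀ χ : G → G' → ℂ, Bich χ → ∀ (μ : G → ℝ) (μ' : G' → ℝ), Pr μ → Pr μ' →
          (2 : ℝ) ^ (-(τ * m)) ≤ ‖∑ x, ∑ y, (μ x : ℂ) * (μ' y : ℂ) * χ x y‖ →
          ∃ (H : AddSubgroup G) (x0 : G) (y0 : G'),
            (2 : ℝ) ^ (-(δ * m)) ≤ ∑ x ∈ (Set.toFinite {x : G | x - x0 ∈ H}).toFinset, μ x ∧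
            (2 : ℝ) ^ (-(δ * m)) ≤
              ∑ y ∈ (Set.toFinite {y : G' | ∀ h ∈ H, χ h y = χ h y0}).toFinset, μ' y :=
  adk Pool.Agent.Lib.PFR.bsg_pfr1 K δ hδ

end BSG
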