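import Mathlib

/-!
# Balog–Szemerédi–Gowers for finite subsets of an abelian group (energy form)

`BSG.bsg`: if `|A|^3 ≤ M * E(A)` then some `A' ⊆ A` has `|A| ≤ 6 M |A'|` and
`|A' - A'| ≤ 2^21 M^10 |A'|`.
-/

set_option autoImplicit false

open Finset
open scoped Pointwise

namespace BSG

variable {G : Type*} [AddCommGroup G] [DecidableEq G]

/-- The number of representations of `z` as a difference of two elements of `A`. -/
def rep (A : Finset G) (z : G) : ℕ := ((A ×ˢ A).filter (fun p => p.1 - p.2 = z)).card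

theorem rep_neg (A : Finset G) (z : G) : rep A (-z) = rep A z := by
  unfold rep
  refine Finset.card_bij (fun p _ => (p.2, p.1)) ?_ ?_ ?_
  · intro p hp
    simp only [mem_filter, mem_product] at hp ⊢
    refine ⟨⟨hp.1.2, hp.1.1⟩, ?_⟩
    rw [← neg_sub, hp.2, neg_neg]
  · intro p _ q _ h
    simp only [Prod.mk.injEq] at h
    exact Prod.ext h.2 h.1
  · intro p hp
    simp only [mem_filter, mem_product] at hp
    refine ⟨(p.2, p.1), ?_, rfl⟩
    simp only [mem_filter, mem_product]
    refine ⟨⟨hp.1.2, hp.1.1⟩, ?_⟩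
    rw [← neg_sub, hp.2]

/-- Convolution lower bound: a set of middle points gives many representations. -/
theorem conv_lower {X Y : Type*} [DecidableEq X] [DecidableEq Y] (S : Finset X) (T : Finset Y)
    (f : X → G) (g : Y → G) (U : Finset G) (a a' : G) :
    ∑ u ∈ U, (S.filter (fun x => f x = a - u)).card * (T.filter (fun y => g y = u - a')).card
      ≤ ((S ×ˢ T).filter (fun p => f p.1 + g p.2 = a - a')).card := by
  classical
  have h1 : ∀ u ∈ U, (S.filter (fun x => f x = a - u)).card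
      * (T.filter (fun y => g y = u - a')).card
      = ((S.filter (fun x => f x = a - u)) ×ˢ (T.filter (fun y => g y = u - a'))).card := by
    intro u _
    rw [card_product]
  rw [Finset.sum_congr rfl h1, ← card_biUnion]
  · refine card_le_card ?_
    intro p hp
    simp only [mem_biUnion, mem_product, mem_filter] at hp ⊢
    obtain ⟨u, -, ⟨h2, h3⟩, h4, h5⟩ := hp
    refine ⟨⟨h2, h4⟩, ?_⟩
    rw [h3, h5]
    abel
  · intro u _ v _ huv
    simp only [Function.onFun]
    rw [Finset.disjoint_left]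
    intro p hp hq
    simp only [mem_product, mem_filter] at hp hq
    refine huv ?_
    have := hp.1.2.symm.trans hq.1.2
    exact sub_right_injective this

omit [AddCommGroup G] [DecidableEq G] in
/-- Cauchy–Schwarz count of paths of length two: some vertex `b` has a large neighbourhood in
which few pairs have few common neighbours. -/
theorem path_two (A : Finset G) (hA : A.Nonempty) (P : G → G → Prop) [DecidableRel P] (δ : ℝ)
    (hδ : 0 < δ)
    (h1 : δ * (A.card : ℝ) ^ 2 ≤ (((A ×ˢ A).filter (fun p => P p.1 p.2)).card : ℝ)) :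
    ∃ b ∈ A, δ ^ 2 * (A.card : ℝ) ^ 2 / 2
      + 8 * ((((A.filter (fun a => P a b)) ×ˢ (A.filter (fun a => P a b))).filter
        (fun q => (((A.filter (fun c => P q.1 c ∧ P q.2 c)).card : ℕ) : ℝ)
          < δ ^ 2 / 16 * A.card)).card : ℝ)
      ≤ ((A.filter (fun a => P a b)).card : ℝ) ^ 2 := by
  classical
  set N : ℝ := (A.card : ℝ) with hN
  have hNpos : 0 < N := by
    rw [hN]; exact_mod_cast hA.card_pos
  have hdeg : (((A ×ˢ A).filter (fun p => P p.1 p.2)).card : ℝ)
      = ∑ b ∈ A, ((A.filter (fun a => P a b)).card : ℝ) := by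
    rw [card_filter]
    push_cast
    rw [Finset.sum_product_right]
    refine Finset.sum_congr rfl (fun b _ => ?_)
    rw [card_filter]
    push_cast
    rfl
  have hcs : δ ^ 2 * N ^ 3 ≤ ∑ b ∈ A, ((A.filter (fun a => P a b)).card : ℝ) ^ 2 := by
    have h2 := Finset.sum_mul_sq_le_sq_mul_sq A (fun _ => (1 : ℝ))
      (fun b => ((A.filter (fun a => P a b)).card : ℝ))
    simp only [one_mul, one_pow, Finset.sum_const, nsmul_eq_mul, mul_one] at h2
    rw [← hdeg] at h2
    have h3 : (δ * N ^ 2) ^ 2 ≤ (((A ×ˢ A).filter (fun p => P p.1 p.2)).card : ℝ) ^ 2 := by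
      refine pow_le_pow_left₀ (by positivity) h1 2
    have h4 : N * (δ ^ 2 * N ^ 3)
        ≤ N * ∑ b ∈ A, ((A.filter (fun a => P a b)).card : ℝ) ^ 2 := by
      calc N * (δ ^ 2 * N ^ 3) = (δ * N ^ 2) ^ 2 := by ring
        _ ≤ _ := h3
        _ ≤ _ := h2
    exact le_of_mul_le_mul_left h4 hNpos
  have hbad : ∑ b ∈ A, ((((A.filter (fun a => P a b)) ×ˢ (A.filter (fun a => P a b))).filter
        (fun q => (((A.filter (fun c => P q.1 c ∧ P q.2 c)).card : ℕ) : ℝ)
          < δ ^ 2 / 16 * N)).card : ℝ) ≤ δ ^ 2 / 16 * N * N ^ 2 := by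
    have h5 : ∀ b ∈ A, ((((A.filter (fun a => P a b)) ×ˢ (A.filter (fun a => P a b))).filter
        (fun q => (((A.filter (fun c => P q.1 c ∧ P q.2 c)).card : ℕ) : ℝ)
          < δ ^ 2 / 16 * N)).card : ℝ)
        = ∑ q ∈ (A ×ˢ A).filter (fun q => (((A.filter (fun c => P q.1 c ∧ P q.2 c)).card : ℕ) : ℝ)
          < δ ^ 2 / 16 * N), (if (P q.1 b ∧ P q.2 b) then (1 : ℝ) else 0) := by
      intro b _
      rw [Finset.sum_boole]
      congr 2
      ext q
      simp only [mem_filter, mem_product]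
      tauto
    rw [Finset.sum_congr rfl h5, Finset.sum_comm]
    calc ∑ q ∈ (A ×ˢ A).filter (fun q => (((A.filter (fun c => P q.1 c ∧ P q.2 c)).card : ℕ) : ℝ)
          < δ ^ 2 / 16 * N), ∑ b ∈ A, (if (P q.1 b ∧ P q.2 b) then (1 : ℝ) else 0)
        ≤ ∑ q ∈ (A ×ˢ A).filter (fun q => (((A.filter (fun c => P q.1 c ∧ P q.2 c)).card : ℕ) : ℝ)
          < δ ^ 2 / 16 * N), (δ ^ 2 / 16 * N) := by
          refine Finset.sum_le_sum (fun q hq => ?_)
          rw [Finset.sum_boole]
          exact (mem_filter.1 hq).2.le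
      _ = (((A ×ˢ A).filter (fun q => (((A.filter (fun c => P q.1 c ∧ P q.2 c)).card : ℕ) : ℝ)
          < δ ^ 2 / 16 * N)).card : ℝ) * (δ ^ 2 / 16 * N) := by
          rw [Finset.sum_const, nsmul_eq_mul]
      _ ≤ (N ^ 2) * (δ ^ 2 / 16 * N) := by
          refine mul_le_mul_of_nonneg_right ?_ (by positivity)
          have h7 := Finset.card_filter_le (A ×ˢ A)
            (fun q => (((A.filter (fun c => P q.1 c ∧ P q.2 c)).card : ℕ) : ℝ) < δ ^ 2 / 16 * N)
          rw [card_product] at h7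
          have h8 : (((A ×ˢ A).filter (fun q =>
            (((A.filter (fun c => P q.1 c ∧ P q.2 c)).card : ℕ) : ℝ)
              < δ ^ 2 / 16 * N)).card : ℝ) ≤ ((A.card * A.card : ℕ) : ℝ) := by
            exact_mod_cast h7
          rw [hN]
          push_cast at h8
          nlinarith [h8]
      _ = δ ^ 2 / 16 * N * N ^ 2 := by ring
  have h6 : ∑ b ∈ A, (δ ^ 2 * N ^ 2 / 2
      + 8 * ((((A.filter (fun a => P a b)) ×ˢ (A.filter (fun a => P a b))).filter
        (fun q => (((A.filter (fun c => P q.1 c ∧ P q.2 c)).card : ℕ) : ℝ)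
          < δ ^ 2 / 16 * N)).card : ℝ))
      ≤ ∑ b ∈ A, ((A.filter (fun a => P a b)).card : ℝ) ^ 2 := by
    rw [Finset.sum_add_distrib, ← Finset.mul_sum, Finset.sum_const, nsmul_eq_mul]
    nlinarith [hcs, hbad]
  exact Finset.exists_le_of_sum_le hA h6

/-- Graph form of Balog–Szemerédi–Gowers. -/
theorem core (A : Finset G) (hA : A.Nonempty) (P : G → G → Prop) [DecidableRel P] (δ ρ : ℝ)
    (hδ : 0 < δ) (hρ : 0 < ρ)
    (h1 : δ * (A.card : ℝ) ^ 2 ≤ (((A ×ˢ A).filter (fun p => P p.1 p.2)).card : ℝ))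
    (h2 : ∀ a ∈ A, ∀ b ∈ A, P a b → ρ * A.card ≤ (rep A (a - b) : ℝ)) :
    ∃ A' ⊆ A, A'.Nonempty ∧ δ * A.card ≤ 3 * (A'.card : ℝ)
      ∧ δ ^ 6 * ρ ^ 4 * ((A' - A').card : ℝ) ≤ 2048 * A'.card := by
  classical
  obtain ⟨b, hb, hb2⟩ := path_two A hA P δ hδ h1
  set N : ℝ := (A.card : ℝ) with hN
  have hNpos : 0 < N := by
    rw [hN]; exact_mod_cast hA.card_pos
  set U : Finset G := A.filter (fun a => P a b) with hU
  set θ : ℝ := δ ^ 2 / 16 with hθ
  have hθpos : 0 < θ := by positivity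
  -- number of common neighbours
  set cn : G → G → ℕ := fun a a' => (A.filter (fun c => P a c ∧ P a' c)).card with hcn
  have hcn_symm : ∀ a a', cn a a' = cn a' a := by
    intro a a'
    simp only [hcn]
    congr 1
    ext c
    simp only [mem_filter]
    tauto
  set badp : Finset (G × G) := (U ×ˢ U).filter (fun q => ((cn q.1 q.2 : ℕ) : ℝ) < θ * N) with hbadp
  have hb3 : δ ^ 2 * N ^ 2 / 2 + 8 * (badp.card : ℝ) ≤ (U.card : ℝ) ^ 2 := hb2
  have hUpos : 0 < (U.card : ℝ) := by
    have h3 : 0 < (U.card : ℝ) ^ 2 := by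
      have : 0 < δ ^ 2 * N ^ 2 / 2 := by positivity
      have h4 : (0 : ℝ) ≤ 8 * (badp.card : ℝ) := by positivity
      linarith
    by_contra h
    have h5 : (U.card : ℝ) = 0 := le_antisymm (not_lt.1 h) (by positivity)
    rw [h5] at h3
    norm_num at h3
  -- vertices with few bad partners
  set A' : Finset G := U.filter (fun a => 4 * (U.filter (fun u => ((cn a u : ℕ) : ℝ) < θ * N)).card
    ≤ U.card) with hA'
  have hA'sub : A' ⊆ A := (filter_subset _ _).trans (filter_subset _ _)
  have hbadsum : (badp.card : ℝ)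
      = ∑ a ∈ U, ((U.filter (fun u => ((cn a u : ℕ) : ℝ) < θ * N)).card : ℝ) := by
    rw [hbadp, card_filter]
    push_cast
    rw [Finset.sum_product]
    refine Finset.sum_congr rfl (fun b _ => ?_)
    rw [card_filter]
    push_cast
    rfl
  have hA'card : (U.card : ℝ) ≤ 2 * (A'.card : ℝ) := by
    have h3 : ((U \ A').card : ℝ) * ((U.card : ℝ) / 4) ≤ (badp.card : ℝ) := by
      rw [hbadsum]
      calc ((U \ A').card : ℝ) * ((U.card : ℝ) / 4) = ∑ a ∈ U \ A', (U.card : ℝ) / 4 := by
            rw [Finset.sum_const, nsmul_eq_mul]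
        _ ≤ ∑ a ∈ U \ A', ((U.filter (fun u => ((cn a u : ℕ) : ℝ) < θ * N)).card : ℝ) := by
            refine Finset.sum_le_sum (fun a ha => ?_)
            have h4 : ¬ (4 * (U.filter (fun u => ((cn a u : ℕ) : ℝ) < θ * N)).card ≤ U.card) :=
              fun h => (mem_sdiff.1 ha).2 (mem_filter.2 ⟨(mem_sdiff.1 ha).1, h⟩)
            rw [not_le] at h4
            have h5 : (U.card : ℝ)
                < 4 * ((U.filter (fun u => ((cn a u : ℕ) : ℝ) < θ * N)).card : ℝ) := by
              exact_mod_cast h4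
            linarith
        _ ≤ ∑ a ∈ U, ((U.filter (fun u => ((cn a u : ℕ) : ℝ) < θ * N)).card : ℝ) := by
            refine Finset.sum_le_sum_of_subset_of_nonneg sdiff_subset (fun _ _ _ => by positivity)
    have h4 : 8 * (badp.card : ℝ) ≤ (U.card : ℝ) ^ 2 := by
      have : 0 < δ ^ 2 * N ^ 2 / 2 := by positivity
      linarith
    have h5 : ((U \ A').card : ℝ) ≤ (U.card : ℝ) / 2 := by
      by_contra h
      rw [not_le] at h
      nlinarith [h, hUpos]
    have h6 : (U \ A').card + A'.card = U.card :=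
      Finset.card_sdiff_add_card_eq_card (filter_subset _ _)
    have h7 : ((U \ A').card : ℝ) + (A'.card : ℝ) = (U.card : ℝ) := by exact_mod_cast h6
    linarith
  have hU2 : δ ^ 2 * N ^ 2 ≤ 2 * (U.card : ℝ) ^ 2 := by
    have h4 : (0 : ℝ) ≤ 8 * (badp.card : ℝ) := by positivity
    linarith
  have hA'pos : 0 < (A'.card : ℝ) := by linarith
  refine ⟨A', hA'sub, ?_, ?_, ?_⟩
  · rw [← Finset.card_pos]; exact_mod_cast hA'pos
  · have h3 : (δ * N) ^ 2 ≤ (3 * (A'.card : ℝ)) ^ 2 := by
      have h4 : (U.card : ℝ) ^ 2 ≤ (2 * (A'.card : ℝ)) ^ 2 :=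
        pow_le_pow_left₀ (by positivity) hA'card 2
      nlinarith [h4, hU2, hA'pos]
    exact (abs_le_of_sq_le_sq' h3 (by positivity)).2
  · -- representation counts
    -- `R2 y` = number of pairs of pairs with `d p₁ + d p₂ = y`
    set AA : Finset (G × G) := A ×ˢ A with hAA
    set d : G × G → G := fun p => p.1 - p.2 with hd
    set R2 : G → ℕ := fun y => ((AA ×ˢ AA).filter (fun p => d p.1 + d p.2 = y)).card with hR2
    set D : (G × G) × (G × G) → G := fun p => d p.1 + d p.2 with hD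
    set R4 : G → ℕ := fun y => (((AA ×ˢ AA) ×ˢ (AA ×ˢ AA)).filter
      (fun p => D p.1 + D p.2 = y)).card with hR4
    set t2 : ℝ := θ * N * (ρ * N) ^ 2 with ht2
    have ht2pos : 0 < t2 := by positivity
    -- good pairs have many representations
    have hgood : ∀ a ∈ A, ∀ u ∈ A, θ * N ≤ (cn a u : ℝ) → t2 ≤ (R2 (a - u) : ℝ) := by
      intro a ha u hu hau
      have h3 := conv_lower AA AA d d (A.filter (fun c => P a c ∧ P u c)) a u
      have h4 : (∑ c ∈ A.filter (fun c => P a c ∧ P u c), (ρ * N) ^ 2)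
          ≤ ((∑ c ∈ A.filter (fun c => P a c ∧ P u c),
            (AA.filter (fun x => d x = a - c)).card * (AA.filter (fun y => d y = c - u)).card
              : ℕ) : ℝ) := by
        push_cast
        refine Finset.sum_le_sum (fun c hc => ?_)
        rw [mem_filter] at hc
        have h5 : ρ * N ≤ ((AA.filter (fun x => d x = a - c)).card : ℝ) :=
          h2 a ha c hc.1 hc.2.1
        have h6 : ρ * N ≤ ((AA.filter (fun x => d x = c - u)).card : ℝ) := by
          have h7 := h2 u hu c hc.1 hc.2.2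
          rw [← rep_neg, neg_sub] at h7
          exact h7
        rw [sq]
        exact mul_le_mul h5 h6 (by positivity) (by positivity)
      rw [Finset.sum_const, nsmul_eq_mul] at h4
      have h8 : ((∑ c ∈ A.filter (fun c => P a c ∧ P u c),
            (AA.filter (fun x => d x = a - c)).card * (AA.filter (fun y => d y = c - u)).card
              : ℕ) : ℝ) ≤ (R2 (a - u) : ℝ) := by exact_mod_cast h3
      calc t2 = θ * N * (ρ * N) ^ 2 := rfl
        _ ≤ (cn a u : ℝ) * (ρ * N) ^ 2 := mul_le_mul_of_nonneg_right hau (by positivity)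
        _ ≤ _ := h4
        _ ≤ _ := h8
    have hmain : ∀ a ∈ A', ∀ a' ∈ A', (U.card : ℝ) / 2 * t2 ^ 2 ≤ (R4 (a - a') : ℝ) := by
      intro a ha a' ha'
      rw [hA', mem_filter] at ha ha'
      have haA : a ∈ A := (filter_subset _ _) ha.1
      have ha'A : a' ∈ A := (filter_subset _ _) ha'.1
      set V : Finset G := U.filter (fun u => θ * N ≤ (cn a u : ℝ) ∧ θ * N ≤ (cn a' u : ℝ)) with hV
      have hVcard : (U.card : ℝ) / 2 ≤ (V.card : ℝ) := by
        have h3 : U ⊆ V ∪ (U.filter (fun u => ((cn a u : ℕ) : ℝ) < θ * N)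
            ∪ U.filter (fun u => ((cn a' u : ℕ) : ℝ) < θ * N)) := by
          intro u hu
          simp only [hV, mem_union, mem_filter]
          by_cases h4 : θ * N ≤ (cn a u : ℝ)
          · by_cases h5 : θ * N ≤ (cn a' u : ℝ)
            · exact Or.inl ⟨hu, h4, h5⟩
            · exact Or.inr (Or.inr ⟨hu, not_le.1 h5⟩)
          · exact Or.inr (Or.inl ⟨hu, not_le.1 h4⟩)
        have h4 := (card_le_card h3).trans ((card_union_le _ _).trans
          (Nat.add_le_add_left (card_union_le _ _) _))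
        have h5 : (U.card : ℝ) ≤ (V.card : ℝ)
          + (((U.filter (fun u => ((cn a u : ℕ) : ℝ) < θ * N)).card : ℝ)
            + ((U.filter (fun u => ((cn a' u : ℕ) : ℝ) < θ * N)).card : ℝ)) := by
          exact_mod_cast h4
        have h6 : 4 * ((U.filter (fun u => ((cn a u : ℕ) : ℝ) < θ * N)).card : ℝ)
            ≤ (U.card : ℝ) := by exact_mod_cast ha.2
        have h7 : 4 * ((U.filter (fun u => ((cn a' u : ℕ) : ℝ) < θ * N)).card : ℝ)
            ≤ (U.card : ℝ) := by exact_mod_cast ha'.2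
        linarith
      have h3 := conv_lower (AA ×ˢ AA) (AA ×ˢ AA) D D V a a'
      have h4 : (∑ u ∈ V, t2 ^ 2)
          ≤ ((∑ u ∈ V, ((AA ×ˢ AA).filter (fun x => D x = a - u)).card
            * ((AA ×ˢ AA).filter (fun y => D y = u - a')).card : ℕ) : ℝ) := by
        push_cast
        refine Finset.sum_le_sum (fun u hu => ?_)
        rw [hV, mem_filter] at hu
        have huA : u ∈ A := (filter_subset _ _) hu.1
        have h5 : t2 ≤ (((AA ×ˢ AA).filter (fun x => D x = a - u)).card : ℝ) :=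
          hgood a haA u huA hu.2.1
        have h6 : t2 ≤ (((AA ×ˢ AA).filter (fun x => D x = u - a')).card : ℝ) := by
          refine hgood u huA a' ha'A ?_
          rw [hcn_symm]
          exact hu.2.2
        rw [sq]
        exact mul_le_mul h5 h6 ht2pos.le (by positivity)
      rw [Finset.sum_const, nsmul_eq_mul] at h4
      have h8 : ((∑ u ∈ V, ((AA ×ˢ AA).filter (fun x => D x = a - u)).card
            * ((AA ×ˢ AA).filter (fun y => D y = u - a')).card : ℕ) : ℝ)
          ≤ (R4 (a - a') : ℝ) := by exact_mod_cast h3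
      calc (U.card : ℝ) / 2 * t2 ^ 2 ≤ (V.card : ℝ) * t2 ^ 2 :=
            mul_le_mul_of_nonneg_right hVcard (by positivity)
        _ ≤ _ := h4
        _ ≤ _ := h8
    have hsum : ((A' - A').card : ℝ) * ((U.card : ℝ) / 2 * t2 ^ 2) ≤ N ^ 8 := by
      have h3 : ∑ z ∈ A' - A', R4 z ≤ ((AA ×ˢ AA) ×ˢ (AA ×ˢ AA)).card := by
        simp only [hR4]
        rw [← card_biUnion]
        · refine card_le_card ?_
          intro p hp
          simp only [mem_biUnion, mem_filter] at hp
          obtain ⟨_, _, h, _⟩ := hp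
          exact h
        · intro u _ v _ huv
          simp only [Function.onFun]
          rw [Finset.disjoint_left]
          intro p hp hq
          exact huv ((mem_filter.1 hp).2.symm.trans (mem_filter.1 hq).2)
      have h4 : ((AA ×ˢ AA) ×ˢ (AA ×ˢ AA)).card = A.card ^ 8 := by
        simp only [hAA, card_product]
        ring
      calc ((A' - A').card : ℝ) * ((U.card : ℝ) / 2 * t2 ^ 2)
          = ∑ z ∈ A' - A', ((U.card : ℝ) / 2 * t2 ^ 2) := by
            rw [Finset.sum_const, nsmul_eq_mul]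
        _ ≤ ∑ z ∈ A' - A', (R4 z : ℝ) := by
            refine Finset.sum_le_sum (fun z hz => ?_)
            obtain ⟨a, ha, a', ha', rfl⟩ := Finset.mem_sub.1 hz
            exact hmain a ha a' ha'
        _ ≤ N ^ 8 := by
            rw [h4] at h3
            rw [hN]
            exact_mod_cast h3
    -- conclusion
    have h9 : ((A' - A').card : ℝ) * ((U.card : ℝ) / 2 * t2 ^ 2)
        = ((A' - A').card : ℝ) * (U.card : ℝ) * (δ ^ 4 * ρ ^ 4) * N ^ 6 / 512 := by
      rw [ht2, hθ]; ring
    rw [h9] at hsum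
    have h10 : ((A' - A').card : ℝ) * (U.card : ℝ) * (δ ^ 4 * ρ ^ 4) ≤ 512 * N ^ 2 := by
      have h11 : ((A' - A').card : ℝ) * (U.card : ℝ) * (δ ^ 4 * ρ ^ 4) * N ^ 6
          ≤ 512 * N ^ 2 * N ^ 6 := by nlinarith [hsum]
      exact le_of_mul_le_mul_right h11 (by positivity)
    have h12 : ((A' - A').card : ℝ) * (δ ^ 6 * ρ ^ 4) * (U.card : ℝ)
        ≤ 1024 * (U.card : ℝ) * (U.card : ℝ) := by
      calc ((A' - A').card : ℝ) * (δ ^ 6 * ρ ^ 4) * (U.card : ℝ)
          = δ ^ 2 * (((A' - A').card : ℝ) * (U.card : ℝ) * (δ ^ 4 * ρ ^ 4)) := by ring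
        _ ≤ δ ^ 2 * (512 * N ^ 2) := mul_le_mul_of_nonneg_left h10 (by positivity)
        _ = 512 * (δ ^ 2 * N ^ 2) := by ring
        _ ≤ 512 * (2 * (U.card : ℝ) ^ 2) := by linarith [hU2]
        _ = 1024 * (U.card : ℝ) * (U.card : ℝ) := by ring
    have h13 : ((A' - A').card : ℝ) * (δ ^ 6 * ρ ^ 4) ≤ 1024 * (U.card : ℝ) :=
      le_of_mul_le_mul_right h12 hUpos
    calc δ ^ 6 * ρ ^ 4 * ((A' - A').card : ℝ) = ((A' - A').card : ℝ) * (δ ^ 6 * ρ ^ 4) := by ring
      _ ≤ 1024 * (U.card : ℝ) := h13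
      _ ≤ 2048 * (A'.card : ℝ) := by linarith [hA'card]

/-- The additive energy as a sum of representation counts over pairs. -/
theorem addEnergy_eq (A : Finset G) :
    A.addEnergy A = ∑ p ∈ A ×ˢ A, rep A (p.1 - p.2) := by
  classical
  unfold Finset.addEnergy rep
  rw [card_filter, Finset.sum_product]
  refine Finset.sum_congr rfl (fun p _ => ?_)
  rw [← card_filter]
  refine Finset.card_bij (fun q _ => (q.2, q.1)) ?_ ?_ ?_
  · intro q hq
    simp only [mem_filter, mem_product] at hq ⊢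
    refine ⟨⟨hq.1.2, hq.1.1⟩, ?_⟩
    have h := hq.2
    rw [sub_eq_sub_iff_add_eq_add, add_comm q.2 p.2, ← h, add_comm]
  · intro q _ q' _ h
    simp only [Prod.mk.injEq] at h
    exact Prod.ext h.2 h.1
  · intro q hq
    simp only [mem_filter, mem_product] at hq
    refine ⟨(q.2, q.1), ?_, rfl⟩
    simp only [mem_filter, mem_product]
    refine ⟨⟨hq.1.2, hq.1.1⟩, ?_⟩
    have h := hq.2
    rw [sub_eq_sub_iff_add_eq_add] at h
    rw [add_comm p.1 q.2, add_comm p.2 q.1, h]
    exact add_comm _ _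

/-- **Balog–Szemerédi–Gowers**, energy form. -/
theorem bsg (A : Finset G) (hA : A.Nonempty) (M : ℝ) (hM : 0 < M)
    (hE : (A.card : ℝ) ^ 3 ≤ M * (A.addEnergy A : ℝ)) :
    ∃ A' ⊆ A, A'.Nonempty ∧ (A.card : ℝ) ≤ 6 * M * (A'.card : ℝ)
      ∧ ((A' - A').card : ℝ) ≤ 2 ^ 21 * M ^ 10 * A'.card := by
  classical
  set N : ℝ := (A.card : ℝ) with hN
  have hNpos : 0 < N := by
    rw [hN]; exact_mod_cast hA.card_pos
  have hrepN : ∀ z, (rep A z : ℝ) ≤ N := by
    intro z
    have h3 : rep A z ≤ A.card := by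
      unfold rep
      refine Finset.card_le_card_of_injOn (fun p => p.1) ?_ ?_
      · intro p hp
        exact (mem_product.1 (mem_filter.1 hp).1).1
      · intro p hp q hq h
        simp only [coe_filter, Set.mem_ofPred_eq] at hp hq
        refine Prod.ext h ?_
        have h4 := hp.2.trans hq.2.symm
        simp only at h
        rw [h] at h4
        exact sub_right_injective h4
    rw [hN]
    exact_mod_cast h3
  set P : G → G → Prop := fun a b => N / (2 * M) ≤ (rep A (a - b) : ℝ) with hP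
  have hδpos : 0 < 1 / (2 * M) := by positivity
  have h1 : 1 / (2 * M) * (A.card : ℝ) ^ 2
      ≤ (((A ×ˢ A).filter (fun p => P p.1 p.2)).card : ℝ) := by
    rw [addEnergy_eq] at hE
    push_cast at hE
    have h3 : ∑ p ∈ A ×ˢ A, (rep A (p.1 - p.2) : ℝ)
        ≤ ∑ p ∈ A ×ˢ A, (N / (2 * M) + (if P p.1 p.2 then N else 0)) := by
      refine Finset.sum_le_sum (fun p _ => ?_)
      by_cases h4 : P p.1 p.2
      · rw [if_pos h4]
        have := hrepN (p.1 - p.2)
        have h5 : 0 < N / (2 * M) := by positivity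
        linarith
      · rw [if_neg h4, add_zero]
        exact (not_le.1 h4).le
    rw [Finset.sum_add_distrib, Finset.sum_const, nsmul_eq_mul, card_product,
      ← Finset.sum_filter, Finset.sum_const, nsmul_eq_mul] at h3
    push_cast at h3
    rw [← hN] at h3 ⊢
    have h5 : M * (∑ p ∈ A ×ˢ A, (rep A (p.1 - p.2) : ℝ))
        ≤ M * (N * N * (N / (2 * M))
          + (((A ×ˢ A).filter (fun p => P p.1 p.2)).card : ℝ) * N) :=
      mul_le_mul_of_nonneg_left h3 hM.le
    have h6 : N ^ 3 ≤ M * (N * N * (N / (2 * M))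
          + (((A ×ˢ A).filter (fun p => P p.1 p.2)).card : ℝ) * N) := hE.trans h5
    have h7 : M * (N * N * (N / (2 * M))
          + (((A ×ˢ A).filter (fun p => P p.1 p.2)).card : ℝ) * N)
        = N ^ 3 / 2 + M * (((A ×ˢ A).filter (fun p => P p.1 p.2)).card : ℝ) * N := by
      field_simp
    rw [h7] at h6
    have h8 : N ^ 2 * N ≤ 2 * M * (((A ×ˢ A).filter (fun p => P p.1 p.2)).card : ℝ) * N := by
      nlinarith [h6]
    have h9 := le_of_mul_le_mul_right h8 hNpos
    rw [div_mul_eq_mul_div, one_mul, div_le_iff₀ (by positivity)]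
    linarith
  obtain ⟨A', hsub, hne, h3, h4⟩ := core A hA P (1 / (2 * M)) (1 / (2 * M)) hδpos hδpos h1
    (fun a _ b _ hab => by
      have h5 : N / (2 * M) ≤ (rep A (a - b) : ℝ) := hab
      rw [div_mul_eq_mul_div, one_mul]
      exact h5)
  refine ⟨A', hsub, hne, ?_, ?_⟩
  · rw [div_mul_eq_mul_div, one_mul, div_le_iff₀ (by positivity)] at h3
    rw [← hN] at h3
    linarith
  · have h5 : (1 / (2 * M)) ^ 6 * (1 / (2 * M)) ^ 4 = 1 / (2 ^ 10 * M ^ 10) := by
      field_simp
    rw [h5, div_mul_eq_mul_div, one_mul, div_le_iff₀ (by positivity)] at h4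
    calc ((A' - A').card : ℝ) ≤ 2048 * (A'.card : ℝ) * (2 ^ 10 * M ^ 10) := h4
      _ = 2 ^ 21 * M ^ 10 * A'.card := by ring

end BSG
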